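import Mathlib

/-!
The geometric facts about Gersten's free-by-cyclic group that are used to show that it is not
biautomatic.
-/

set_option autoImplicit false

namespace Pool.Agent.H171Z.Biaut

/-- the sign attached to the two kinds of strips -/
def eps (b : Bool) : ℤ := if b then 1 else -1

/-- The geometric data: a plane `V`, two stable letters `T b`, a coarse retraction `ρ` onto the
plane and the half spaces `side b`. -/
structure Geo (G : Type) [Group G] where
  V : ℤ × ℤ → G
  V_add : ∀ x y, V (x + y) = V x * V y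
  T : Bool → G
  VT : ∀ b m, V (eps b * m, m) * T b = T b * V (0, m)
  ρ : G → ℤ × ℤ
  ρV : ∀ x, ρ (V x) = x
  lip : ∀ s, ∃ C : ℕ, ∀ g, |(ρ (g * s)).1 - (ρ g).1| ≤ C ∧ |(ρ (g * s)).2 - (ρ g).2| ≤ C
  side : Bool → G → Prop
  s1 : ∀ b g, ¬ side b g → (ρ ((T b)⁻¹ * g)).1 = 0
  s2 : ∀ b g, side b g → (ρ g).1 = eps b * (ρ g).2
  s3 : ∀ s, ∃ F : Finset G, ∀ b g, ¬ (side b g ↔ side b (g * s)) →
    ∃ m, ∃ f ∈ F, g = V (eps b * m, m) * f
  cent : ∀ g, g * V (1, 0) = V (1, 0) * g → ∃ x, g = V x

open FreeGroup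

abbrev F3 := FreeGroup (Fin 3)

/-- first letter of the reduced word -/
def hd (f : F3) : Option (Fin 3 × Bool) := f.toWord.head?

theorem toWord_of_red {w : List (Fin 3 × Bool)} (h : IsReduced w) : (mk w).toWord = w := by
  rw [toWord_mk, h.reduce_eq]

theorem hd_one : hd 1 = none := rfl

theorem hd_letter (l : Fin 3 × Bool) : hd (mk [l]) = some l := by
  unfold hd; rw [toWord_of_red IsReduced.singleton]; rfl

theorem K1 (f : F3) (l : Fin 3 × Bool) : hd (f * mk [l]) = hd f ∨ f = 1 ∨ f * mk [l] = 1 := by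
  have hr : IsReduced f.toWord := isReduced_toWord
  rcases List.eq_nil_or_concat f.toWord with h0 | ⟨w, z, hw⟩
  · exact Or.inr (Or.inl (toWord_eq_nil_iff.1 h0))
  · rw [List.concat_eq_append] at hw
    have hf : f = mk (w ++ [z]) := by rw [← hw, mk_toWord]
    by_cases hz : z.1 = l.1 → z.2 = l.2
    · left
      have hred : IsReduced (w ++ [z] ++ [l]) := by
        apply IsReduced.append_overlap (hw ▸ hr) _ (by simp)
        show IsReduced [z, l]
        rw [isReduced_cons_cons]; exact ⟨hz, IsReduced.singleton⟩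
      have : f * mk [l] = mk (w ++ [z] ++ [l]) := by rw [hf, mul_mk]
      unfold hd
      rw [this, toWord_of_red hred, hw]
      cases w <;> simp
    · have hz1 : z.1 = l.1 := by by_contra h; exact hz (fun h' => absurd h' h)
      have hz2 : l.2 = !z.2 := by
        have : z.2 ≠ l.2 := fun h => hz (fun _ => h)
        cases h1 : z.2 <;> cases h2 : l.2 <;> simp_all
      have hl : l = (z.1, !z.2) := Prod.ext hz1.symm hz2
      have e1 : f * mk [l] = mk w := by
        rw [hf, mul_mk, hl]
        have : w ++ [z] ++ [(z.1, !z.2)] = w ++ (z.1, z.2) :: (z.1, !z.2) :: [] := by simp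
        rw [this]
        have h2 := Quot.sound (Red.Step.not (L₁ := w) (L₂ := []) (x := z.1) (b := z.2))
        have h3 : mk (w ++ (z.1, z.2) :: (z.1, !z.2) :: []) = mk (w ++ []) := h2
        rw [h3, List.append_nil]
      have hwr : IsReduced w := List.IsChain.left_of_append (l₂ := [z]) (hw ▸ hr)
      cases w with
      | nil => right; right; rw [e1]; rfl
      | cons y w =>
        left
        unfold hd
        rw [e1, toWord_of_red hwr, hw]; rfl

theorem L1 (f : F3) (l : Fin 3 × Bool) (h : hd f ≠ some (l.1, !l.2)) :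
    (mk [l] * f).toWord = l :: f.toWord := by
  have hr : IsReduced f.toWord := isReduced_toWord
  have : mk [l] * f = mk (l :: f.toWord) := by
    conv_lhs => rw [← mk_toWord (x := f), mul_mk]
    rfl
  rw [this]
  apply toWord_of_red
  unfold hd at h
  cases hw : f.toWord with
  | nil => exact IsReduced.singleton
  | cons y w =>
    rw [isReduced_cons_cons]
    refine ⟨fun h1 => ?_, hw ▸ hr⟩
    rw [hw] at h
    by_contra h2
    apply h
    simp only [List.head?_cons, Option.some.injEq]
    refine Prod.ext h1.symm ?_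
    cases h3 : y.2 <;> cases h4 : l.2 <;> simp_all

theorem hd_L1 (f : F3) (l : Fin 3 × Bool) (h : hd f ≠ some (l.1, !l.2)) :
    hd (mk [l] * f) = some l := by
  unfold hd; rw [L1 f l h]; rfl

def a : F3 := of 0

theorem a_eq : a = mk [((0 : Fin 3), true)] := rfl
theorem a_inv : a⁻¹ = mk [((0 : Fin 3), false)] := rfl

/-- the reduced word does not start with the letter `a` or its inverse -/
def Bd (f : F3) : Prop := ∀ b, hd f ≠ some (0, b)

theorem hd_pow (f : F3) (hf : Bd f) (n : ℕ) :
    hd (a ^ (n + 1) * f) = some (0, true) ∧ hd (a⁻¹ ^ (n + 1) * f) = some (0, false) := by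
  induction n with
  | zero =>
    simp only [zero_add, pow_one]
    exact ⟨hd_L1 f (0, true) (hf _), hd_L1 f (0, false) (hf _)⟩
  | succ n ih =>
    constructor
    · rw [pow_succ', mul_assoc, a_eq]
      apply hd_L1
      rw [← a_eq, ih.1]; simp
    · rw [pow_succ', mul_assoc, a_inv]
      apply hd_L1
      rw [← a_inv, ih.2]; simp

theorem dec_unique {f1 f2 : F3} (h1 : Bd f1) (h2 : Bd f2) {n m : ℤ}
    (h : a ^ n * f1 = a ^ m * f2) : n = m ∧ f1 = f2 := by
  have e : a ^ (n - m) * f1 = f2 := by
    rw [sub_eq_neg_add, zpow_add, mul_assoc, h]; group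
  have hnm : n - m = 0 := by
    by_contra hne
    rcases lt_or_gt_of_ne hne with hlt | hgt
    · obtain ⟨k, hk⟩ : ∃ k : ℕ, n - m = -((k + 1 : ℕ) : ℤ) := ⟨(m - n - 1).toNat, by omega⟩
      rw [hk, zpow_neg, zpow_natCast, ← inv_pow] at e
      exact h2 _ (e ▸ (hd_pow f1 h1 k).2)
    · obtain ⟨k, hk⟩ : ∃ k : ℕ, n - m = ((k + 1 : ℕ) : ℤ) := ⟨(n - m - 1).toNat, by omega⟩
      rw [hk, zpow_natCast] at e
      exact h2 _ (e ▸ (hd_pow f1 h1 k).1)
  rw [hnm] at e
  exact ⟨by omega, by simpa using e⟩

theorem dec_exists (f : F3) : ∃ p : ℤ × F3, Bd p.2 ∧ f = a ^ p.1 * p.2 := by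
  generalize hn : f.toWord.length = n
  induction n generalizing f with
  | zero =>
    have : f = 1 := toWord_eq_nil_iff.1 (List.length_eq_zero_iff.1 hn)
    exact ⟨(0, 1), fun b => by simp [hd_one], by simp [this]⟩
  | succ n ih =>
    by_cases hb : Bd f
    · exact ⟨(0, f), hb, by simp⟩
    · unfold Bd at hb
      push Not at hb
      obtain ⟨b, hb⟩ := hb
      unfold hd at hb
      obtain ⟨w, hw⟩ : ∃ w, f.toWord = (0, b) :: w := by
        cases h : f.toWord with
        | nil => rw [h] at hb; simp at hb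
        | cons y w => rw [h] at hb; simp at hb; exact ⟨w, by rw [hb]⟩
      have hr : IsReduced f.toWord := isReduced_toWord
      have hwr : IsReduced w := List.IsChain.right_of_append (l₁ := [(0, b)]) (by
        rw [hw] at hr; exact hr)
      have hf : f = mk [(0, b)] * mk w := by rw [mul_mk, List.singleton_append, ← hw, mk_toWord]
      obtain ⟨p, hp, hp2⟩ := ih (mk w) (by
        rw [toWord_of_red hwr]; rw [hw] at hn; simpa using hn)
      cases b with
      | true => exact ⟨(1 + p.1, p.2), hp, by rw [hf, hp2, ← a_eq, zpow_add]; simp [mul_assoc]⟩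
      | false => exact ⟨(-1 + p.1, p.2), hp, by rw [hf, hp2, ← a_inv, zpow_add]; simp [mul_assoc]⟩

noncomputable def dec (f : F3) : ℤ × F3 := (dec_exists f).choose

theorem dec_eq {f1 : F3} (h1 : Bd f1) (n : ℤ) : dec (a ^ n * f1) = (n, f1) := by
  have h := (dec_exists (a ^ n * f1)).choose_spec
  have := dec_unique h1 h.1 h.2
  exact Prod.ext this.1.symm this.2.symm

theorem dec_spec (f : F3) : Bd (dec f).2 ∧ f = a ^ (dec f).1 * (dec f).2 :=
  (dec_exists f).choose_spec

theorem Bd_one : Bd 1 := fun b => by simp [hd_one]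

def idx (b : Bool) : Fin 3 := if b then 1 else 2

theorem idx_ne (b : Bool) : idx b ≠ 0 := by cases b <;> decide

def t (b : Bool) : F3 := of (idx b)

theorem t_eq (b : Bool) : t b = mk [(idx b, true)] := rfl
theorem t_inv (b : Bool) : (t b)⁻¹ = mk [(idx b, false)] := rfl

/-- the slope attached to the first letter -/
def sl (o : Option (Fin 3 × Bool)) : ℤ :=
  if o = some (1, true) then 1 else if o = some (2, true) then -1 else 0

theorem sl_t (b : Bool) : sl (some (idx b, true)) = eps b := by cases b <;> decide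
theorem sl_tinv (b : Bool) : sl (some (idx b, false)) = 0 := by cases b <;> decide
theorem sl_le (o : Option (Fin 3 × Bool)) : |sl o| ≤ 1 := by
  unfold sl; split_ifs <;> simp

/-- right multiplication by a power of `a` keeps a first letter different from `a` -/
theorem hd_mul_a {f : F3} (hf : Bd f) (h1 : f ≠ 1) (n : ℤ) : hd (f * a ^ n) = hd f := by
  have key : ∀ g : F3, hd g = hd f → ∀ b, hd (g * mk [(0, b)]) = hd f := by
    intro g hg b
    rcases K1 g (0, b) with h | h | h
    · rw [h, hg]
    · exfalso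
      rw [h, hd_one] at hg
      apply h1
      unfold hd at hg
      exact toWord_eq_nil_iff.1 (List.head?_eq_none_iff.1 hg.symm)
    · exfalso
      have : g = mk [(0, !b)] := by
        rw [mul_eq_one_iff_eq_inv] at h
        rw [h]; rfl
      rw [this, hd_letter] at hg
      exact hf _ hg.symm
  induction n using Int.induction_on with
  | zero => simp
  | succ n ih => rw [zpow_add, zpow_one, ← mul_assoc, a_eq]; exact key _ ih _
  | pred n ih => rw [zpow_sub_one, ← mul_assoc, a_inv]; exact key _ ih _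

def φf : F3 →* F3 := lift fun i => if i = 0 then a else if i = 1 then a⁻¹ * of 1 else a * of 2
def φg : F3 →* F3 := lift fun i => if i = 0 then a else if i = 1 then a * of 1 else a⁻¹ * of 2

theorem φf_a : φf a = a := by simp [φf, a]
theorem φg_a : φg a = a := by simp [φg, a]

def φ : MulAut F3 := MonoidHom.toMulEquiv φf φg
  (by
    ext i
    fin_cases i
    · simp [φf, φg, a]
    · simp [φf, φg, a]
    · simp [φf, φg, a])
  (by
    ext i
    fin_cases i
    · simp [φf, φg, a]
    · simp [φf, φg, a]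
    · simp [φf, φg, a])

theorem φ_a : φ a = a := φf_a
theorem φ_t (b : Bool) : φ (t b) = a ^ (-eps b) * t b := by
  cases b
  · show φf (t false) = _
    simp [φf, t, idx, eps]
  · show φf (t true) = _
    simp [φf, t, idx, eps]

theorem φz_a (h : ℤ) : (φ ^ h) a = a := by
  induction h using Int.induction_on with
  | zero => simp
  | succ n ih => rw [zpow_add, zpow_one, MulAut.mul_apply, φ_a, ih]
  | pred n ih =>
    rw [zpow_sub_one, MulAut.mul_apply]
    have : φ⁻¹ a = a := by
      conv_lhs => rw [← φ_a]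
      simp
    rw [this, ih]

theorem φz_t (b : Bool) (h : ℤ) : (φ ^ h) (t b) = a ^ (-(eps b * h)) * t b := by
  induction h using Int.induction_on with
  | zero => simp
  | succ n ih =>
    rw [zpow_add, zpow_one, MulAut.mul_apply, φ_t, _root_.map_mul, map_zpow, φz_a, ih, ← mul_assoc,
      ← zpow_add]
    congr 2; ring
  | pred n ih =>
    rw [zpow_sub_one, MulAut.mul_apply]
    have : φ⁻¹ (t b) = a ^ (eps b) * t b := by
      have h2 : φ (a ^ (eps b) * t b) = t b := by
        rw [_root_.map_mul, map_zpow, φ_a, φ_t, ← mul_assoc, ← zpow_add]; simp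
      conv_lhs => rw [← h2]
      simp
    rw [this, _root_.map_mul, map_zpow, φz_a, ih, ← mul_assoc, ← zpow_add]
    congr 2; ring

abbrev GG := SemidirectProduct F3 (Multiplicative ℤ) (zpowersHom (MulAut F3) φ)

def mkG (f : F3) (h : ℤ) : GG := ⟨f, Multiplicative.ofAdd h⟩

theorem mkG_mul (f f' : F3) (h h' : ℤ) :
    mkG f h * mkG f' h' = mkG (f * (φ ^ h) f') (h + h') := by
  rfl

theorem eq_mkG (g : GG) : g = mkG g.left g.right.toAdd := rfl

theorem mkG_one : mkG 1 0 = 1 := rfl

theorem GG_ind (P : GG → Prop) (h1 : P 1) (ha : P (mkG a 0)) (ht : ∀ b, P (mkG (t b) 0))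
    (hu : P (mkG 1 1)) (hm : ∀ x y, P x → P y → P (x * y)) (hi : ∀ x, P x → P x⁻¹) (g : GG) :
    P g := by
  have e : g = mkG g.left 0 * mkG 1 g.right.toAdd := by
    rw [mkG_mul]; simp; rfl
  rw [e]
  apply hm
  · generalize g.left = f
    induction f using FreeGroup.induction_on with
    | C1 => exact h1
    | of i =>
      fin_cases i
      · exact ha
      · exact ht true
      · exact ht false
    | inv_of i ih =>
      have : mkG (of i)⁻¹ 0 = (mkG (of i) 0)⁻¹ := by
        rw [eq_inv_iff_mul_eq_one, mkG_mul]; simp [mkG_one]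
      rw [this]; exact hi _ ih
    | mul x y hx hy =>
      have : mkG (x * y) 0 = mkG x 0 * mkG y 0 := by rw [mkG_mul]; simp
      rw [this]; exact hm _ _ hx hy
  · generalize g.right.toAdd = n
    induction n using Int.induction_on with
    | zero => exact h1
    | succ n ih =>
      have : mkG 1 ((n : ℤ) + 1) = mkG 1 n * mkG 1 1 := by rw [mkG_mul]; simp
      rw [this]; exact hm _ _ ih hu
    | pred n ih =>
      have : mkG 1 (-(n : ℤ) - 1) = mkG 1 (-n) * (mkG 1 1)⁻¹ := by
        rw [eq_mul_inv_iff_mul_eq, mkG_mul]; simp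
      rw [this]; exact hm _ _ ih (hi _ hu)

noncomputable def rho (g : GG) : ℤ × ℤ :=
  ((dec g.left).1 + sl (hd (dec g.left).2) * g.right.toAdd, g.right.toAdd)

theorem rho_mk {f1 : F3} (h1 : Bd f1) (n h : ℤ) :
    rho (mkG (a ^ n * f1) h) = (n + sl (hd f1) * h, h) := by
  unfold rho
  show ((dec (a ^ n * f1)).1 + sl (hd (dec (a ^ n * f1)).2) * h, h) = _
  rw [dec_eq h1]

theorem ex_form (g : GG) : ∃ (n h : ℤ) (f1 : F3), Bd f1 ∧ g = mkG (a ^ n * f1) h :=
  ⟨(dec g.left).1, g.right.toAdd, _, (dec_spec g.left).1, by rw [← (dec_spec g.left).2]; rfl⟩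

def sd (b : Bool) (g : GG) : Prop := hd g.left = some (idx b, true)

theorem Bd_of_hd {f : F3} {i : Fin 3} {c : Bool} (hi : i ≠ 0) (h : hd f = some (i, c)) : Bd f := by
  intro b hb
  rw [h] at hb
  simp at hb
  exact hi hb.1

theorem hd_zpow (n : ℤ) (b : Bool) : hd (a ^ n) ≠ some (idx b, true) := by
  intro h
  have h1 := Bd_of_hd (idx_ne b) h
  have := (dec_unique (n := 0) (m := n) h1 Bd_one (by simp)).2
  rw [this, hd_one] at h
  simp at h

theorem sd_mul_a (f : F3) (n : ℤ) (b : Bool) :
    hd (f * a ^ n) = some (idx b, true) ↔ hd f = some (idx b, true) := by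
  have key : ∀ (f : F3) (n : ℤ), hd f = some (idx b, true) → hd (f * a ^ n) = some (idx b, true) := by
    intro f n h
    rw [hd_mul_a (Bd_of_hd (idx_ne b) h) (by rintro rfl; simp [hd_one] at h), h]
  refine ⟨fun h => ?_, key f n⟩
  have := key _ (-n) h
  simpa [mul_assoc] using this

noncomputable def geo : Geo GG where
  V x := mkG (a ^ x.1) x.2
  V_add x y := by rw [mkG_mul, map_zpow, φz_a, ← zpow_add]; rfl
  T b := mkG (t b) 0
  VT b m := by
    rw [mkG_mul, mkG_mul, φz_t, ← mul_assoc, ← zpow_add]; simp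
  ρ := rho
  ρV x := by
    have := rho_mk Bd_one x.1 x.2
    simp only [mul_one, hd_one] at this
    rw [this]; simp [sl]
  lip s := by
    induction s using GG_ind with
    | h1 => exact ⟨0, fun g => by simp⟩
    | ha =>
      refine ⟨1, fun g => ?_⟩
      obtain ⟨n, h, f1, h1, rfl⟩ := ex_form g
      rw [mkG_mul, φz_a, rho_mk h1]
      by_cases hf : f1 = 1
      · subst hf
        have : a ^ n * 1 * a = a ^ (n + 1) * 1 := by rw [zpow_add]; simp
        rw [this, rho_mk Bd_one]; simp
      · have e := hd_mul_a h1 hf 1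
        rw [zpow_one] at e
        have hb : Bd (f1 * a) := fun b => by rw [e]; exact h1 b
        rw [mul_assoc, rho_mk hb, e]; simp
    | ht c =>
      refine ⟨0, fun g => ?_⟩
      obtain ⟨n, h, f1, h1, rfl⟩ := ex_form g
      rw [mkG_mul, φz_t, rho_mk h1]
      by_cases hf : f1 = 1
      · subst hf
        have : a ^ n * 1 * (a ^ (-(eps c * h)) * t c) = a ^ (n - eps c * h) * t c := by
          rw [sub_eq_add_neg, zpow_add]; simp [mul_assoc]
        have hb : Bd (t c) := Bd_of_hd (idx_ne c) (hd_letter _)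
        rw [this, rho_mk hb, t_eq, hd_letter, sl_t]; simp [hd_one, sl]
      · have e := hd_mul_a h1 hf (-(eps c * h))
        have e2 : a ^ n * f1 * (a ^ (-(eps c * h)) * t c) =
            a ^ n * (f1 * a ^ (-(eps c * h)) * t c) := by simp [mul_assoc]
        rw [e2]
        rcases K1 (f1 * a ^ (-(eps c * h))) (idx c, true) with k | k | k
        · rw [← t_eq, e] at k
          have hb : Bd (f1 * a ^ (-(eps c * h)) * t c) := fun b => by rw [k]; exact h1 b
          rw [rho_mk hb, k]; simp
        · exfalso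
          rw [k, hd_one] at e
          apply hf
          unfold hd at e
          exact toWord_eq_nil_iff.1 (List.head?_eq_none_iff.1 e.symm)
        · rw [← t_eq] at k
          have k2 : f1 * a ^ (-(eps c * h)) = mk [(idx c, false)] := by
            rw [mul_eq_one_iff_eq_inv] at k; rw [k, t_inv]
          rw [k2, hd_letter] at e
          rw [k, rho_mk Bd_one, ← e, sl_tinv]; simp [hd_one, sl]
    | hu =>
      refine ⟨1, fun g => ?_⟩
      obtain ⟨n, h, f1, h1, rfl⟩ := ex_form g
      rw [mkG_mul, _root_.map_one, mul_one, rho_mk h1, rho_mk h1]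
      have := sl_le (hd f1)
      constructor
      · have e : n + sl (hd f1) * (h + 1) - (n + sl (hd f1) * h) = sl (hd f1) := by ring
        simp only [e]; exact_mod_cast this
      · simp
    | hm x y hx hy =>
      obtain ⟨C, hC⟩ := hx
      obtain ⟨D, hD⟩ := hy
      refine ⟨C + D, fun g => ?_⟩
      have h1 := hC g
      have h2 := hD (g * x)
      rw [← mul_assoc]
      push_cast
      rw [abs_le] at *
      constructor <;> (rw [abs_le] at *; omega)
    | hi x hx =>
      obtain ⟨C, hC⟩ := hx
      refine ⟨C, fun g => ?_⟩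
      have h1 := hC (g * x⁻¹)
      rw [inv_mul_cancel_right] at h1
      rw [abs_sub_comm, abs_sub_comm (rho (g * x⁻¹)).2]
      exact h1
  side := sd
  s1 b g hg := by
    have e : (mkG (t b) 0)⁻¹ * g = mkG (a ^ (0 : ℤ) * ((t b)⁻¹ * g.left)) g.right.toAdd := by
      rw [inv_mul_eq_iff_eq_mul, mkG_mul]; simp; rfl
    have h2 : hd ((t b)⁻¹ * g.left) = some (idx b, false) := by
      rw [t_inv]; exact hd_L1 _ _ hg
    rw [e, rho_mk (Bd_of_hd (idx_ne b) h2), h2, sl_tinv]; simp
  s2 b g hg := by
    have e : g = mkG (a ^ (0 : ℤ) * g.left) g.right.toAdd := by simp; rfl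
    rw [e, rho_mk (Bd_of_hd (idx_ne b) hg)]
    unfold sd at hg
    rw [hg, sl_t]; simp
  s3 s := by
    classical
    induction s using GG_ind with
    | h1 => exact ⟨∅, fun b g h => by simp at h⟩
    | ha =>
      refine ⟨∅, fun b g h => ?_⟩
      exfalso; apply h
      rw [eq_mkG g, mkG_mul, φz_a]
      have := sd_mul_a g.left 1 b
      rw [zpow_one] at this
      exact this.symm
    | ht c =>
      refine ⟨{1}, fun b g h => ?_⟩
      generalize hf : g.left = f
      generalize hh : g.right.toAdd = k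
      have e : g = mkG f k := by rw [← hf, ← hh]; rfl
      rw [e, mkG_mul, φz_t, ← mul_assoc] at h
      change ¬ (hd f = some (idx b, true) ↔
        hd (f * a ^ (-(eps c * k)) * t c) = some (idx b, true)) at h
      rw [← sd_mul_a f (-(eps c * k)) b] at h
      rcases K1 (f * a ^ (-(eps c * k))) (idx c, true) with k1 | k1 | k1
      · rw [← t_eq] at k1; rw [k1] at h; simp at h
      · rw [k1, one_mul, t_eq, hd_letter, hd_one] at h
        have hcb : c = b := by
          cases b <;> cases c <;> simp [idx] at h ⊢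
        subst hcb
        refine ⟨k, 1, by simp, ?_⟩
        rw [e, mul_one]
        have : f = a ^ (eps c * k) := by
          rw [mul_eq_one_iff_eq_inv] at k1; rw [k1]; simp
        rw [this]
      · exfalso
        rw [← t_eq] at k1
        have k2 : f * a ^ (-(eps c * k)) = mk [(idx c, false)] := by
          rw [mul_eq_one_iff_eq_inv] at k1; rw [k1, t_inv]
        rw [k1, k2, hd_letter, hd_one] at h
        simp at h
    | hu =>
      refine ⟨∅, fun b g h => ?_⟩
      exfalso; apply h
      rw [eq_mkG g, mkG_mul, _root_.map_one, mul_one]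
      rfl
    | hm x y hx hy =>
      obtain ⟨F, hF⟩ := hx
      obtain ⟨F', hF'⟩ := hy
      refine ⟨F ∪ F'.image (· * x⁻¹), fun b g h => ?_⟩
      by_cases h1 : sd b g ↔ sd b (g * x)
      · have h2 : ¬ (sd b (g * x) ↔ sd b (g * x * y)) := by
          rw [← h1, mul_assoc]; exact h
        obtain ⟨m, f, hf, e⟩ := hF' b _ h2
        refine ⟨m, f * x⁻¹, Finset.mem_union_right _ (Finset.mem_image_of_mem _ hf), ?_⟩
        rw [← mul_assoc, ← e]; simp
      · obtain ⟨m, f, hf, e⟩ := hF b _ h1
        exact ⟨m, f, Finset.mem_union_left _ hf, e⟩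
    | hi x hx =>
      obtain ⟨F, hF⟩ := hx
      refine ⟨F.image (· * x), fun b g h => ?_⟩
      have h2 : ¬ (sd b (g * x⁻¹) ↔ sd b (g * x⁻¹ * x)) := by
        rw [inv_mul_cancel_right]; exact fun h' => h h'.symm
      obtain ⟨m, f, hf, e⟩ := hF b _ h2
      refine ⟨m, f * x, Finset.mem_image_of_mem _ hf, ?_⟩
      rw [← mul_assoc, ← e]; simp
  cent g hg := by
    obtain ⟨n, h, f1, h1, rfl⟩ := ex_form g
    refine ⟨(n, h), ?_⟩
    rw [mkG_mul, mkG_mul, map_zpow, φz_a] at hg
    have e : a ^ n * f1 * a ^ (1 : ℤ) = a ^ (1 : ℤ) * (φ ^ (0 : ℤ)) (a ^ n * f1) :=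
      congrArg SemidirectProduct.left hg
    simp only [zpow_zero, MulAut.one_apply] at e
    by_cases hf : f1 = 1
    · simp [hf]
    · exfalso
      have e1 := hd_mul_a h1 hf 1
      have hb : Bd (f1 * a ^ (1 : ℤ)) := fun b => by rw [e1]; exact h1 b
      have e2 : a ^ n * (f1 * a ^ (1 : ℤ)) = a ^ (1 + n) * f1 := by
        rw [← mul_assoc, e, zpow_add, mul_assoc]
      have := (dec_unique hb h1 e2).1
      omega

end Pool.Agent.H171Z.Biaut
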