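import Mathlib

/-!
Word norm and fellow travelling for a biautomatic structure.
-/

set_option autoImplicit false

namespace Pool.Agent.H171Z.Biaut

/-- A biautomatic structure. -/
structure BA (G : Type) [Group G] where
  α : Type
  fa : Fintype α
  μ : α → G
  σ : Type
  fs : Fintype σ
  M : DFA α σ
  k : ℕ
  onto : ∀ g, ∃ u ∈ M.accepts, (u.map μ).prod = g
  ft : ∀ u ∈ M.accepts, ∀ v ∈ M.accepts, ∀ s : List α, s.length ≤ 1 →
          (((u.map μ).prod * (s.map μ).prod = (v.map μ).prod →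
              ∀ t : ℕ, ∃ w : List α, w.length ≤ k ∧
                (w.map μ).prod = ((u.take t).map μ).prod⁻¹ * ((v.take t).map μ).prod) ∧
           ((s.map μ).prod * (u.map μ).prod = (v.map μ).prod →
              ∀ t : ℕ, ∃ w : List α, w.length ≤ k ∧
                (w.map μ).prod =
                  ((s.map μ).prod * ((u.take t).map μ).prod)⁻¹ * ((v.take t).map μ).prod))

namespace BA

variable {G : Type} [Group G] (S : BA G)

instance : Fintype S.α := S.fa
instance : Fintype S.σ := S.fs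

def ev (w : List S.α) : G := (w.map S.μ).prod

@[simp] theorem ev_nil : S.ev [] = 1 := rfl
theorem ev_append (u v : List S.α) : S.ev (u ++ v) = S.ev u * S.ev v := by
  simp [ev]
theorem ev_single (x : S.α) : S.ev [x] = S.μ x := by simp [ev]

def sl (x : S.α × Bool) : G := if x.2 then S.μ x.1 else (S.μ x.1)⁻¹

def ev2 (l : List (S.α × Bool)) : G := (l.map S.sl).prod

theorem ev2_map (w : List S.α) : S.ev2 (w.map fun x => (x, true)) = S.ev w := by
  simp only [ev2, ev, List.map_map]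
  congr 1

theorem exN (g : G) : ∃ n, ∃ l : List (S.α × Bool), l.length = n ∧ S.ev2 l = g := by
  obtain ⟨u, _, hu⟩ := S.onto g
  exact ⟨_, u.map fun x => (x, true), rfl, by rw [ev2_map]; exact hu⟩

open Classical in
/-- the word norm -/
noncomputable def N (g : G) : ℕ := Nat.find (S.exN g)

theorem N_spec (g : G) : ∃ l : List (S.α × Bool), l.length = S.N g ∧ S.ev2 l = g := by
  classical exact Nat.find_spec (S.exN g)

theorem N_le2 (l : List (S.α × Bool)) : S.N (S.ev2 l) ≤ l.length := by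
  classical exact Nat.find_min' _ ⟨l, rfl, rfl⟩

theorem N_le (w : List S.α) : S.N (S.ev w) ≤ w.length := by
  have := S.N_le2 (w.map fun x => (x, true))
  rwa [ev2_map, List.length_map] at this

theorem N_one : S.N 1 = 0 := Nat.le_zero.1 (S.N_le [])

theorem N_mul (g h : G) : S.N (g * h) ≤ S.N g + S.N h := by
  obtain ⟨l, hl, e⟩ := S.N_spec g
  obtain ⟨l', hl', e'⟩ := S.N_spec h
  have := S.N_le2 (l ++ l')
  rw [List.length_append, hl, hl'] at this
  have e2 : S.ev2 (l ++ l') = g * h := by rw [← e, ← e']; simp [ev2]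
  rwa [e2] at this

theorem ev2_inv (l : List (S.α × Bool)) :
    S.ev2 (l.map fun x => (x.1, !x.2)).reverse = (S.ev2 l)⁻¹ := by
  induction l with
  | nil => simp [ev2]
  | cons x l ih =>
    simp only [ev2, List.map_cons, List.reverse_cons, List.map_append, List.prod_append,
      List.prod_cons, mul_inv_rev] at ih ⊢
    rw [ih]
    congr 1
    rcases x with ⟨x, b⟩
    cases b <;> simp [sl]

theorem N_inv_le (g : G) : S.N g⁻¹ ≤ S.N g := by
  obtain ⟨l, hl, e⟩ := S.N_spec g
  have := S.N_le2 (l.map fun x => (x.1, !x.2)).reverse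
  rwa [ev2_inv, e, List.length_reverse, List.length_map, hl] at this

theorem N_inv (g : G) : S.N g⁻¹ = S.N g :=
  le_antisymm (S.N_inv_le g) (by simpa using S.N_inv_le g⁻¹)

theorem N_pow (g : G) (n : ℕ) : S.N (g ^ n) ≤ n * S.N g := by
  induction n with
  | zero => simp [N_one]
  | succ n ih => rw [pow_succ]; have := S.N_mul (g ^ n) g; nlinarith

theorem ball_finite (n : ℕ) : {g | S.N g ≤ n}.Finite := by
  refine ((List.finite_length_le (S.α × Bool) n).image S.ev2).subset ?_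
  intro g hg
  obtain ⟨l, hl, e⟩ := S.N_spec g
  exact ⟨l, by simp only [Set.mem_ofPred_eq] at hg ⊢; omega, e⟩

theorem step_right {u v : List S.α} (hu : u ∈ S.M.accepts) (hv : v ∈ S.M.accepts)
    (x : S.α × Bool) (h : S.ev v = S.ev u * S.sl x) (t : ℕ) :
    S.N ((S.ev (u.take t))⁻¹ * S.ev (v.take t)) ≤ S.k := by
  rcases x with ⟨x, b⟩
  cases b with
  | true =>
    obtain ⟨w, hw, e⟩ := (S.ft u hu v hv [x] (by simp)).1 (by simpa [sl, ev] using h.symm) t
    have := S.N_le w
    unfold ev at *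
    rw [← e]; omega
  | false =>
    obtain ⟨w, hw, e⟩ := (S.ft v hv u hu [x] (by simp)).1 (by
      have : S.ev v * S.μ x = S.ev u := by rw [h]; simp [sl]
      simpa [ev] using this) t
    have := S.N_le w
    rw [← N_inv]
    unfold ev at *
    simp only [mul_inv_rev, inv_inv]
    rw [← e]; omega

theorem step_left {u v : List S.α} (hu : u ∈ S.M.accepts) (hv : v ∈ S.M.accepts)
    (x : S.α × Bool) (h : S.ev v = S.sl x * S.ev u) (t : ℕ) :
    S.N ((S.sl x * S.ev (u.take t))⁻¹ * S.ev (v.take t)) ≤ S.k := by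
  rcases x with ⟨x, b⟩
  cases b with
  | true =>
    obtain ⟨w, hw, e⟩ := (S.ft u hu v hv [x] (by simp)).2 (by simpa [sl, ev] using h.symm) t
    have := S.N_le w
    unfold ev at *
    simp only [List.map_cons, List.map_nil, List.prod_cons, List.prod_nil, mul_one] at e
    simp only [sl, if_true]
    rw [← e]; omega
  | false =>
    obtain ⟨w, hw, e⟩ := (S.ft v hv u hu [x] (by simp)).2 (by
      have : S.μ x * S.ev v = S.ev u := by rw [h]; simp [sl]
      simpa [ev] using this) t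
    have := S.N_le w
    rw [← N_inv]
    unfold ev at *
    simp only [List.map_cons, List.map_nil, List.prod_cons, List.prod_nil, mul_one] at e
    have e2 : ((S.sl (x, false) * (List.map S.μ (List.take t u)).prod)⁻¹ *
        (List.map S.μ (List.take t v)).prod)⁻¹ =
        (S.μ x * (List.map S.μ (List.take t v)).prod)⁻¹ * (List.map S.μ (List.take t u)).prod := by
      simp [sl, mul_assoc]
    rw [e2, ← e]; omega

theorem step_eq {u v : List S.α} (hu : u ∈ S.M.accepts) (hv : v ∈ S.M.accepts)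
    (h : S.ev v = S.ev u) (t : ℕ) :
    S.N ((S.ev (u.take t))⁻¹ * S.ev (v.take t)) ≤ S.k := by
  obtain ⟨w, hw, e⟩ := (S.ft u hu v hv [] (by simp)).1 (by simpa [ev] using h.symm) t
  have := S.N_le w
  unfold ev at *
  rw [← e]; omega

theorem ft_right (l : List (S.α × Bool)) {u v : List S.α} (hu : u ∈ S.M.accepts)
    (hv : v ∈ S.M.accepts) (h : S.ev v = S.ev u * S.ev2 l) (t : ℕ) :
    S.N ((S.ev (u.take t))⁻¹ * S.ev (v.take t)) ≤ S.k * (l.length + 1) := by
  induction l generalizing u with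
  | nil => simpa using S.step_eq hu hv (by simpa [ev2] using h) t
  | cons x l ih =>
    obtain ⟨u', hu', e⟩ := S.onto (S.ev u * S.sl x)
    have h1 := S.step_right hu hu' x e t
    have h2 := ih hu' (by
      rw [h]; change _ = (u'.map S.μ).prod * _; rw [e]; simp [ev2, mul_assoc])
    have h3 := S.N_mul ((S.ev (u.take t))⁻¹ * S.ev (u'.take t))
      ((S.ev (u'.take t))⁻¹ * S.ev (v.take t))
    have e3 : (S.ev (u.take t))⁻¹ * S.ev (u'.take t) * ((S.ev (u'.take t))⁻¹ * S.ev (v.take t))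
        = (S.ev (u.take t))⁻¹ * S.ev (v.take t) := by group
    rw [e3] at h3
    simp only [List.length_cons]
    nlinarith

theorem ft_left (l : List (S.α × Bool)) {u v : List S.α} (hu : u ∈ S.M.accepts)
    (hv : v ∈ S.M.accepts) (h : S.ev v = S.ev2 l * S.ev u) (t : ℕ) :
    S.N ((S.ev2 l * S.ev (u.take t))⁻¹ * S.ev (v.take t)) ≤ S.k * (l.length + 1) := by
  induction l generalizing v with
  | nil => simpa [ev2] using S.step_eq hu hv (by simpa [ev2] using h) t
  | cons x l ih =>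
    obtain ⟨u', hu', e⟩ := S.onto (S.ev2 l * S.ev u)
    have e' : S.ev u' = S.ev2 l * S.ev u := e
    have e0 : S.ev2 (x :: l) = S.sl x * S.ev2 l := by simp [ev2]
    have h1 := S.step_left hu' hv x (by rw [h, e', e0, mul_assoc]) t
    have h2 := ih hu' e'
    have h3 := S.N_mul ((S.ev2 l * S.ev (u.take t))⁻¹ * S.ev (u'.take t))
      ((S.sl x * S.ev (u'.take t))⁻¹ * S.ev (v.take t))
    have e3 : (S.ev2 l * S.ev (u.take t))⁻¹ * S.ev (u'.take t) *
        ((S.sl x * S.ev (u'.take t))⁻¹ * S.ev (v.take t))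
        = (S.ev2 (x :: l) * S.ev (u.take t))⁻¹ * S.ev (v.take t) := by
      rw [e0]; group
    rw [e3] at h3
    simp only [List.length_cons]
    nlinarith

theorem ft1 {u v : List S.α} (hu : u ∈ S.M.accepts) (hv : v ∈ S.M.accepts) (g g' : G)
    (h : S.ev v = g * S.ev u * g') (t : ℕ) :
    S.N ((g * S.ev (u.take t))⁻¹ * S.ev (v.take t)) ≤ S.k * (S.N g + S.N g' + 2) := by
  obtain ⟨l, hl, e⟩ := S.N_spec g
  obtain ⟨l', hl', e'⟩ := S.N_spec g'
  obtain ⟨u', hu', e2⟩ := S.onto (g * S.ev u)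
  have e2' : S.ev u' = g * S.ev u := e2
  have h1 := S.ft_left l hu hu' (by rw [e, e2']) t
  have h2 := S.ft_right l' hu' hv (by rw [e', e2', h]) t
  rw [e, hl] at h1
  rw [hl'] at h2
  have h3 := S.N_mul ((g * S.ev (u.take t))⁻¹ * S.ev (u'.take t))
    ((S.ev (u'.take t))⁻¹ * S.ev (v.take t))
  have e3 : (g * S.ev (u.take t))⁻¹ * S.ev (u'.take t) *
    ((S.ev (u'.take t))⁻¹ * S.ev (v.take t)) = (g * S.ev (u.take t))⁻¹ * S.ev (v.take t) := by
    group
  rw [e3] at h3
  nlinarith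

theorem take_dist (w : List S.α) (s d : ℕ) :
    S.N ((S.ev (w.take s))⁻¹ * S.ev (w.take (s + d))) ≤ d := by
  rw [List.take_add, ev_append, inv_mul_cancel_left]
  exact (S.N_le _).trans (by simp)

/-- a factor of an accepted word, together with its first and last state -/
def Live (q : S.σ) : Prop := (∃ x, S.M.eval x = q) ∧ ∃ y, S.M.evalFrom q y ∈ S.M.accept

theorem ex_short : ∃ c : ℕ, ∀ q, S.Live q →
    (∃ x, x.length ≤ c ∧ S.M.eval x = q) ∧ ∃ y, y.length ≤ c ∧ S.M.evalFrom q y ∈ S.M.accept := by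
  classical
  have : ∀ q, ∃ c : ℕ, S.Live q → (∃ x, x.length ≤ c ∧ S.M.eval x = q) ∧
      ∃ y, y.length ≤ c ∧ S.M.evalFrom q y ∈ S.M.accept := by
    intro q
    by_cases h : S.Live q
    · obtain ⟨⟨x, hx⟩, y, hy⟩ := h
      exact ⟨x.length + y.length, fun _ => ⟨⟨x, by omega, hx⟩, y, by omega, hy⟩⟩
    · exact ⟨0, fun h' => absurd h' h⟩
  choose f hf using this
  refine ⟨Finset.univ.sup f, fun q hq => ?_⟩
  have hle : f q ≤ Finset.univ.sup f := Finset.le_sup (Finset.mem_univ q)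
  obtain ⟨⟨x, hx, e⟩, y, hy, e'⟩ := hf q hq
  exact ⟨⟨x, by omega, e⟩, y, by omega, e'⟩

/-- `w` is a factor of an accepted word -/
def Seg (w : List S.α) : Prop := ∃ q, S.Live q ∧ S.Live (S.M.evalFrom q w)

theorem live_take {w : List S.α} (hw : w ∈ S.M.accepts) (t : ℕ) : S.Live (S.M.eval (w.take t)) := by
  refine ⟨⟨_, rfl⟩, w.drop t, ?_⟩
  rw [DFA.eval, ← DFA.evalFrom_of_append, List.take_append_drop]
  exact hw

theorem take_drop_eq (w : List S.α) {s t : ℕ} (h : s ≤ t) :
    w.take s ++ (w.take t).drop s = w.take t := by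
  conv_rhs => rw [← List.take_append_drop s (w.take t)]
  rw [List.take_take, min_eq_left h]

theorem eval_seg (w : List S.α) {s t : ℕ} (h : s ≤ t) :
    S.M.evalFrom (S.M.eval (w.take s)) ((w.take t).drop s) = S.M.eval (w.take t) := by
  rw [DFA.eval, ← DFA.evalFrom_of_append, take_drop_eq S w h]

theorem ev_seg (w : List S.α) {s t : ℕ} (h : s ≤ t) :
    S.ev (w.take s) * S.ev ((w.take t).drop s) = S.ev (w.take t) := by
  rw [← ev_append, take_drop_eq S w h]

theorem seg_of {w : List S.α} (hw : w ∈ S.M.accepts) {s t : ℕ} (h : s ≤ t) :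
    S.Seg ((w.take t).drop s) :=
  ⟨_, S.live_take hw s, by rw [eval_seg S w h]; exact S.live_take hw t⟩

theorem near_take (x w y : List S.α) (t : ℕ) :
    S.N ((S.ev x * S.ev (w.take t))⁻¹ * S.ev ((x ++ w ++ y).take t)) ≤ x.length + y.length := by
  have h1 := S.take_dist (x ++ w ++ y) t x.length
  have e1 : (x ++ w ++ y).take (t + x.length) = x ++ (w.take t ++ y.take (t - w.length)) := by
    rw [List.append_assoc, List.take_append, List.take_of_length_le (by omega),
      Nat.add_sub_cancel, List.take_append]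
  rw [e1, ev_append, ev_append, ← N_inv] at h1
  have h2 := S.N_le (y.take (t - w.length))
  have h3 : (y.take (t - w.length)).length ≤ y.length := by simp
  have h4 := S.N_mul (S.ev (y.take (t - w.length)))
    ((S.ev ((x ++ w ++ y).take t))⁻¹ *
      (S.ev x * (S.ev (w.take t) * S.ev (y.take (t - w.length)))))⁻¹
  have e2 : S.ev (y.take (t - w.length)) * ((S.ev ((x ++ w ++ y).take t))⁻¹ *
      (S.ev x * (S.ev (w.take t) * S.ev (y.take (t - w.length)))))⁻¹ =
      (S.ev x * S.ev (w.take t))⁻¹ * S.ev ((x ++ w ++ y).take t) := by group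
  rw [e2] at h4
  omega

theorem ft2 : ∃ K : ℕ, ∀ w w', S.Seg w → S.Seg w' → ∀ g g' : G, S.ev w' = g * S.ev w * g' →
    ∀ t, S.N ((g * S.ev (w.take t))⁻¹ * S.ev (w'.take t)) ≤ K * (S.N g + S.N g' + 1) := by
  obtain ⟨c, hc⟩ := S.ex_short
  refine ⟨S.k * (4 * c + 2) + 4 * c, ?_⟩
  rintro w w' ⟨q, hq, hq2⟩ ⟨q', hq', hq2'⟩ g g' h t
  obtain ⟨x, hx, ex⟩ := (hc q hq).1
  obtain ⟨y, hy, ey⟩ := (hc _ hq2).2
  obtain ⟨x', hx', ex'⟩ := (hc q' hq').1
  obtain ⟨y', hy', ey'⟩ := (hc _ hq2').2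
  have hU : x ++ w ++ y ∈ S.M.accepts := by
    rw [DFA.mem_accepts, DFA.eval, DFA.evalFrom_of_append, DFA.evalFrom_of_append]
    rw [DFA.eval] at ex; rw [ex]; exact ey
  have hU' : x' ++ w' ++ y' ∈ S.M.accepts := by
    rw [DFA.mem_accepts, DFA.eval, DFA.evalFrom_of_append, DFA.evalFrom_of_append]
    rw [DFA.eval] at ex'; rw [ex']; exact ey'
  have h1 := S.ft1 hU hU' (S.ev x' * g * (S.ev x)⁻¹) ((S.ev y)⁻¹ * g' * S.ev y') (by
    simp only [ev_append, h]; group) t
  have h2 := S.near_take x w y t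
  have h3 := S.near_take x' w' y' t
  rw [← N_inv] at h3
  set U := S.ev ((x ++ w ++ y).take t)
  set U' := S.ev ((x' ++ w' ++ y').take t)
  have e : (g * S.ev (w.take t))⁻¹ * S.ev (w'.take t) =
      ((S.ev x * S.ev (w.take t))⁻¹ * U) * ((S.ev x' * g * (S.ev x)⁻¹ * U)⁻¹ * U') *
        ((S.ev x' * S.ev (w'.take t))⁻¹ * U')⁻¹ := by group
  rw [e]
  have a1 := S.N_mul (((S.ev x * S.ev (w.take t))⁻¹ * U) * ((S.ev x' * g * (S.ev x)⁻¹ * U)⁻¹ * U'))
    ((S.ev x' * S.ev (w'.take t))⁻¹ * U')⁻¹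
  have a2 := S.N_mul ((S.ev x * S.ev (w.take t))⁻¹ * U) ((S.ev x' * g * (S.ev x)⁻¹ * U)⁻¹ * U')
  have b1 := S.N_mul (S.ev x' * g) (S.ev x)⁻¹
  have b2 := S.N_mul (S.ev x') g
  have b3 := S.N_mul ((S.ev y)⁻¹ * g') (S.ev y')
  have b4 := S.N_mul (S.ev y)⁻¹ g'
  rw [N_inv] at b1 b4
  have c1 := S.N_le x
  have c2 := S.N_le x'
  have c3 := S.N_le y
  have c4 := S.N_le y'
  have d1 : S.k * (S.N (S.ev x' * g * (S.ev x)⁻¹) + S.N ((S.ev y)⁻¹ * g' * S.ev y') + 2) ≤
      S.k * (S.N g + S.N g' + 4 * c + 2) := Nat.mul_le_mul_left _ (by omega)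
  have d2 : S.k * (S.N g + S.N g' + 4 * c + 2) + 4 * c ≤
      (S.k * (4 * c + 2) + 4 * c) * (S.N g + S.N g' + 1) := by
    generalize S.N g + S.N g' = n
    nlinarith [Nat.zero_le (S.k * n * c), Nat.zero_le (S.k * n), Nat.zero_le (c * n)]
  omega

end BA

end Pool.Agent.H171Z.Biaut
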