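import Pool.Agent.H171Z.Biaut.Geo
import Pool.Agent.H171Z.Biaut.Norm

/-!
Planes are quasiconvex; loops of the automaton along a plane have well defined velocities.
-/

set_option autoImplicit false

namespace Pool.Agent.H171Z.Biaut

variable {G : Type} [Group G]

namespace Geo

variable (X : Geo G)

theorem V_zero : X.V 0 = 1 := by
  have := X.V_add 0 0
  rw [add_zero] at this
  exact left_eq_mul.1 this

theorem V_neg (x : ℤ × ℤ) : X.V (-x) = (X.V x)⁻¹ := by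
  rw [eq_inv_iff_mul_eq_one, ← X.V_add, neg_add_cancel, V_zero]

theorem V_sub (x y : ℤ × ℤ) : X.V (x - y) = (X.V y)⁻¹ * X.V x := by
  rw [← V_neg, ← X.V_add, sub_eq_neg_add]

theorem V_comm (x y : ℤ × ℤ) : X.V x * X.V y = X.V y * X.V x := by
  rw [← X.V_add, ← X.V_add, add_comm]

theorem V_nsmul (n : ℕ) (x : ℤ × ℤ) : X.V ((n : ℤ) • x) = X.V x ^ n := by
  induction n with
  | zero => simp [V_zero]
  | succ n ih => rw [Nat.cast_succ, add_smul, one_smul, X.V_add, ih, pow_succ]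

end Geo

variable (S : BA G) (X : Geo G)

theorem rho_lip : ∃ C : ℕ, ∀ g s, |(X.ρ (g * s)).1 - (X.ρ g).1| ≤ C * S.N s ∧
    |(X.ρ (g * s)).2 - (X.ρ g).2| ≤ C * S.N s := by
  classical
  choose f hf using X.lip
  set C := Finset.univ.sup fun x : S.α × Bool => f (S.sl x)
  have hC : ∀ x, (f (S.sl x) : ℤ) ≤ C := fun x => by
    exact_mod_cast Finset.le_sup (f := fun x : S.α × Bool => f (S.sl x)) (Finset.mem_univ x)
  refine ⟨C, fun g s => ?_⟩
  obtain ⟨l, hl, e⟩ := S.N_spec s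
  rw [← hl, ← e]
  clear hl e
  induction l generalizing g with
  | nil => simp [BA.ev2]
  | cons x l ih =>
    have e0 : S.ev2 (x :: l) = S.sl x * S.ev2 l := by simp [BA.ev2]
    have h1 := ih (g * S.sl x)
    have h2 := hf (S.sl x) g
    have h3 := hC x
    rw [e0, ← mul_assoc, List.length_cons]
    push_cast
    rw [mul_add, mul_one]
    generalize (C : ℤ) * l.length = D at *
    rw [abs_le, abs_le] at *
    omega

theorem cross : ∃ c : ℕ, ∀ b g x, ¬ X.side b g → X.side b (g * S.μ x) →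
    ∃ m f f', S.N f ≤ c ∧ S.N f' ≤ c ∧ g = X.V (eps b * m, m) * f ∧
      g = X.T b * X.V (0, m) * f' := by
  classical
  choose F hF using X.s3
  set c := Finset.univ.sup fun x : S.α => (F (S.μ x)).sup S.N
  refine ⟨c + S.N (X.T true) + S.N (X.T false), fun b g x h1 h2 => ?_⟩
  obtain ⟨m, f, hf, e⟩ := hF (S.μ x) b g (fun h => h1 (h.2 h2))
  have h3 : S.N f ≤ c :=
    (Finset.le_sup (f := S.N) hf).trans
      (Finset.le_sup (f := fun x : S.α => (F (S.μ x)).sup S.N) (Finset.mem_univ x))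
  refine ⟨m, f, (X.T b)⁻¹ * f, by omega, ?_, e, ?_⟩
  · have := S.N_mul (X.T b)⁻¹ f
    rw [S.N_inv] at this
    cases b <;> omega
  · rw [← X.VT, e]; group

theorem qc (c : ℕ) : ∃ B : Finset G, ∀ w, S.Seg w → ∀ g1 g2 x, S.N g1 ≤ c → S.N g2 ≤ c →
    g1 * S.ev w = X.V x * g2 → ∀ t, ∃ y, ∃ b ∈ B, g1 * S.ev (w.take t) = X.V y * b := by
  classical
  obtain ⟨K, hK⟩ := S.ft2
  set A := X.V (1, 0)
  set Mx := K * (4 * c + 2 * S.N A + 1)
  have : ∀ z : G, ∃ r : G, (∃ p, p⁻¹ * A⁻¹ * p = z) → r⁻¹ * A⁻¹ * r = z := by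
    intro z
    by_cases h : ∃ p, p⁻¹ * A⁻¹ * p = z
    · obtain ⟨p, hp⟩ := h; exact ⟨p, fun _ => hp⟩
    · exact ⟨1, fun h' => absurd h' h⟩
  choose r hr using this
  refine ⟨(S.ball_finite Mx).toFinset.image r, fun w hw g1 g2 x h1 h2 e t => ?_⟩
  have e1 : S.ev w = g1⁻¹ * X.V x * g2 := by rw [mul_assoc, ← e]; group
  have h3 := hK w w hw hw (g1⁻¹ * A * g1) (g2⁻¹ * A⁻¹ * g2) (by
    rw [e1]
    have : g1⁻¹ * A * g1 * (g1⁻¹ * X.V x * g2) * (g2⁻¹ * A⁻¹ * g2) =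
      g1⁻¹ * (A * X.V x) * A⁻¹ * g2 := by group
    have hc : A * X.V x = X.V x * A := X.V_comm _ _
    rw [this, hc]; group) t
  set p := g1 * S.ev (w.take t) with hp
  have e2 : (g1⁻¹ * A * g1 * S.ev (w.take t))⁻¹ * S.ev (w.take t) = p⁻¹ * A⁻¹ * p := by
    rw [hp]; group
  rw [e2] at h3
  have h4 : S.N (p⁻¹ * A⁻¹ * p) ≤ Mx := by
    refine h3.trans (Nat.mul_le_mul_left _ ?_)
    have a1 := S.N_mul (g1⁻¹ * A) g1
    have a2 := S.N_mul g1⁻¹ A
    have a3 := S.N_mul (g2⁻¹ * A⁻¹) g2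
    have a4 := S.N_mul g2⁻¹ A⁻¹
    rw [S.N_inv] at a2 a4
    rw [S.N_inv] at a4
    omega
  have h5 := hr (p⁻¹ * A⁻¹ * p) ⟨p, rfl⟩
  set q := r (p⁻¹ * A⁻¹ * p) with hq
  obtain ⟨y, hy⟩ := X.cent (p * q⁻¹) (by
    have h6 : q⁻¹ * A * q = p⁻¹ * A * p := by
      have := congrArg (·⁻¹) h5
      simpa [mul_assoc] using this
    calc p * q⁻¹ * A = p * (q⁻¹ * A * q) * q⁻¹ := by group
      _ = A * (p * q⁻¹) := by rw [h6]; group)
  refine ⟨y, q, Finset.mem_image_of_mem _ (by simpa using h4), ?_⟩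
  rw [← hy]; group

/-- a loop of the automaton that translates along the plane -/
def Loop (s : S.σ × G) (y : List S.α) (Y : ℤ × ℤ) : Prop :=
  y ≠ [] ∧ S.M.evalFrom s.1 y = s.1 ∧ s.2 * S.ev y = X.V Y * s.2

def rep {β : Type} (n : ℕ) (y : List β) : List β := (List.replicate n y).flatten

theorem rep_succ {β : Type} (n : ℕ) (y : List β) : rep (n + 1) y = y ++ rep n y := by
  simp [rep, List.replicate_succ]

theorem rep_zero {β : Type} (y : List β) : rep 0 y = [] := rfl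

theorem rep_length {β : Type} (n : ℕ) (y : List β) : (rep n y).length = n * y.length := by
  induction n with
  | zero => simp [rep_zero]
  | succ n ih => rw [rep_succ, List.length_append, ih]; ring

theorem rep_add {β : Type} (m n : ℕ) (y : List β) : rep (m + n) y = rep m y ++ rep n y := by
  induction m with
  | zero => simp [rep_zero]
  | succ m ih => rw [Nat.add_right_comm, rep_succ, rep_succ, ih, List.append_assoc]

theorem rep_state {q : S.σ} {y : List S.α} (h : S.M.evalFrom q y = q) (n : ℕ) :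
    S.M.evalFrom q (rep n y) = q := by
  induction n with
  | zero => rfl
  | succ n ih => rw [rep_succ, DFA.evalFrom_of_append, h, ih]

theorem rep_ev {b : G} {y : List S.α} {Y : ℤ × ℤ} (h : b * S.ev y = X.V Y * b) (n : ℕ) :
    b * S.ev (rep n y) = X.V ((n : ℤ) • Y) * b := by
  induction n with
  | zero => simp [rep_zero, X.V_zero]
  | succ n ih =>
    rw [rep_succ, S.ev_append, ← mul_assoc, h, mul_assoc, ih, ← mul_assoc, ← X.V_add]
    congr 2
    push_cast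
    rw [add_smul, one_smul, add_comm]

theorem Loop.rep {s : S.σ × G} {y : List S.α} {Y : ℤ × ℤ} (h : Loop S X s y Y) {n : ℕ}
    (hn : 0 < n) : Loop S X s (rep n y) ((n : ℤ) • Y) := by
  refine ⟨?_, rep_state S h.2.1 n, rep_ev S X h.2.2 n⟩
  intro e
  have := congrArg List.length e
  rw [rep_length] at this
  have h2 : 0 < y.length := List.length_pos_iff.2 h.1
  simp only [List.length_nil] at this
  nlinarith [Nat.mul_pos hn h2]

theorem rhoV_bound {C : ℕ} (hC : ∀ g s, |(X.ρ (g * s)).1 - (X.ρ g).1| ≤ C * S.N s ∧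
    |(X.ρ (g * s)).2 - (X.ρ g).2| ≤ C * S.N s) (x : ℤ × ℤ) :
    |x.1| ≤ C * S.N (X.V x) ∧ |x.2| ≤ C * S.N (X.V x) := by
  have := hC (X.V 0) (X.V x)
  rw [← X.V_add, X.ρV, X.ρV] at this
  simpa using this

theorem vel_unique {s : S.σ × G} (hs : S.Live s.1) {y z : List S.α} {Y Z : ℤ × ℤ}
    (hy : Loop S X s y Y) (hz : Loop S X s z Z) :
    (z.length : ℤ) • Y = (y.length : ℤ) • Z := by
  obtain ⟨K, hK⟩ := S.ft2
  obtain ⟨C, hC⟩ := rho_lip S X
  set D := (z.length : ℤ) • Y - (y.length : ℤ) • Z with hD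
  have key : ∀ m : ℕ, |(m : ℤ) * D.1| ≤ C * (K + 2 * S.N s.2) ∧
      |(m : ℤ) * D.2| ≤ C * (K + 2 * S.N s.2) := by
    intro m
    set u := rep (m * z.length) y
    set v := rep (m * y.length) z
    have su : S.M.evalFrom s.1 u = s.1 := rep_state S hy.2.1 _
    have sv : S.M.evalFrom s.1 v = s.1 := rep_state S hz.2.1 _
    have eu := rep_ev S X hy.2.2 (m * z.length)
    have ev := rep_ev S X hz.2.2 (m * y.length)
    have lu : u.length = m * z.length * y.length := rep_length _ _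
    have lv : v.length = m * z.length * y.length := by rw [rep_length]; ring
    have eu' : S.ev u = s.2⁻¹ * X.V (((m * z.length : ℕ) : ℤ) • Y) * s.2 := by
      rw [mul_assoc, ← eu, inv_mul_cancel_left]
    have ev' : S.ev v = s.2⁻¹ * X.V (((m * y.length : ℕ) : ℤ) • Z) * s.2 := by
      rw [mul_assoc, ← ev, inv_mul_cancel_left]
    have h1 := hK (v ++ u) (u ++ v)
      ⟨s.1, hs, by rw [DFA.evalFrom_of_append, sv, su]; exact hs⟩
      ⟨s.1, hs, by rw [DFA.evalFrom_of_append, su, sv]; exact hs⟩ 1 1 (by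
        rw [S.ev_append, S.ev_append, eu', ev']
        have := X.V_comm (((m * z.length : ℕ) : ℤ) • Y) (((m * y.length : ℕ) : ℤ) • Z)
        calc _ = s.2⁻¹ * (X.V (((m * z.length : ℕ) : ℤ) • Y) *
              X.V (((m * y.length : ℕ) : ℤ) • Z)) * s.2 := by group
          _ = _ := by rw [this]; group) (m * z.length * y.length)
    rw [List.take_left' lu, List.take_left' lv, S.N_one, eu', ev'] at h1
    have e3 : X.V ((m : ℤ) • D) = s.2 * ((1 * (s.2⁻¹ * X.V (((m * y.length : ℕ) : ℤ) • Z) * s.2))⁻¹ *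
        (s.2⁻¹ * X.V (((m * z.length : ℕ) : ℤ) • Y) * s.2)) * s.2⁻¹ := by
      have : (m : ℤ) • D = ((m * z.length : ℕ) : ℤ) • Y - ((m * y.length : ℕ) : ℤ) • Z := by
        rw [hD, smul_sub, smul_smul, smul_smul]; push_cast; rfl
      rw [this, X.V_sub]; group
    have h2 := rhoV_bound S X hC ((m : ℤ) • D)
    have h3 : S.N (X.V ((m : ℤ) • D)) ≤ K + 2 * S.N s.2 := by
      rw [e3]
      generalize (1 * (s.2⁻¹ * X.V (((m * y.length : ℕ) : ℤ) • Z) * s.2))⁻¹ *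
        (s.2⁻¹ * X.V (((m * z.length : ℕ) : ℤ) • Y) * s.2) = w at *
      have a1 := S.N_mul (s.2 * w) s.2⁻¹
      have a2 := S.N_mul s.2 w
      rw [S.N_inv] at a1
      omega
    have h4 : (C : ℤ) * S.N (X.V ((m : ℤ) • D)) ≤ C * (K + 2 * S.N s.2) := by
      apply mul_le_mul_of_nonneg_left _ (by positivity)
      exact_mod_cast h3
    simp only [Prod.smul_fst, Prod.smul_snd, smul_eq_mul] at h2
    exact ⟨h2.1.trans h4, h2.2.trans h4⟩
  have fin : ∀ d : ℤ, (∀ m : ℕ, |(m : ℤ) * d| ≤ C * (K + 2 * S.N s.2)) → d = 0 := by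
    intro d h
    by_contra hd
    have := h (C * (K + 2 * S.N s.2) + 1)
    rw [abs_mul, Nat.abs_cast] at this
    have h1 : 1 ≤ |d| := Int.one_le_abs hd
    push_cast at this
    nlinarith [show (0 : ℤ) ≤ C * (K + 2 * S.N s.2) by positivity]
  have : D = 0 := Prod.ext (fin _ fun m => (key m).1) (fin _ fun m => (key m).2)
  exact sub_eq_zero.1 this

/-- `p` lies within `c` of the plane through `Γ` -/
def Near (c : ℕ) (Γ p : G) : Prop := ∃ y g, S.N g ≤ c ∧ p = Γ * X.V y * g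

/-- All constants. -/
structure Data where
  K : ℕ
  hK : ∀ u ∈ S.M.accepts, ∀ v ∈ S.M.accepts, ∀ g, S.ev v = S.ev u * g → ∀ t,
    S.N ((S.ev (u.take t))⁻¹ * S.ev (v.take t)) ≤ K * (S.N g + 1)
  C : ℕ
  hC : ∀ g s, |(X.ρ (g * s)).1 - (X.ρ g).1| ≤ C * S.N s ∧
    |(X.ρ (g * s)).2 - (X.ρ g).2| ≤ C * S.N s
  c : ℕ
  hc : ∀ b g x, ¬ X.side b g → X.side b (g * S.μ x) →
    ∃ m f f', S.N f ≤ c ∧ S.N f' ≤ c ∧ g = X.V (eps b * m, m) * f ∧
      g = X.T b * X.V (0, m) * f'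
  B : Finset G
  hB : ∀ w ∈ S.M.accepts, ∀ Γ t1 t t2, t1 ≤ t → t ≤ t2 → Near S X c Γ (S.ev (w.take t1)) →
    Near S X c Γ (S.ev (w.take t2)) → ∃ y, ∃ b ∈ B, S.ev (w.take t) = Γ * X.V y * b
  cB : ℕ
  hcB : ∀ b ∈ B, S.N b ≤ cB
  Λ : ℕ
  hΛ : 0 < Λ
  lp : S.σ × G → List S.α
  vel : S.σ × G → ℤ × ℤ
  hlp : ∀ s, s.2 ∈ B → (∃ y Y, Loop S X s y Y) → Loop S X s (lp s) (vel s) ∧ (lp s).length = Λ
  C0 : ℕ
  hC0 : ∀ s, s.2 ∈ B → |(vel s).1| ≤ C0 ∧ |(vel s).2| ≤ C0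

theorem ex_data : Nonempty (Data S X) := by
  classical
  obtain ⟨C, hC⟩ := rho_lip S X
  obtain ⟨c, hc⟩ := cross S X
  obtain ⟨B, hB⟩ := qc S X c
  have h1 : ∀ s : S.σ × G, ∃ (y : List S.α) (Y : ℤ × ℤ), 0 < y.length + (if y = [] then 1 else 0) ∧
      ((∃ y Y, Loop S X s y Y) → Loop S X s y Y) := by
    intro s
    by_cases h : ∃ y Y, Loop S X s y Y
    · obtain ⟨y, Y, h⟩ := h
      exact ⟨y, Y, by have := List.length_pos_iff.2 h.1; omega, fun _ => h⟩
    · exact ⟨[], 0, by simp, fun h' => absurd h' h⟩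
  choose y Y hpos hy using h1
  set ℓ : S.σ × G → ℕ := fun s => (y s).length + (if y s = [] then 1 else 0) with hℓ
  set P : Finset (S.σ × G) := Finset.univ ×ˢ B
  set Λ := ∏ s ∈ P, ℓ s
  have hΛ : 0 < Λ := Finset.prod_pos fun s _ => hpos s
  set vel : S.σ × G → ℤ × ℤ := fun s => ((Λ / ℓ s : ℕ) : ℤ) • Y s with hvel
  refine ⟨⟨2 * S.k, ?_, C, hC, c, hc, B, ?_, B.sup S.N, fun b hb => Finset.le_sup hb, Λ, hΛ,
    fun s => rep (Λ / ℓ s) (y s), vel, ?_,
    P.sup fun s => (vel s).1.natAbs + (vel s).2.natAbs, ?_⟩⟩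
  · intro u hu v hv g e t
    have := S.ft1 hu hv 1 g (by rw [e, one_mul]) t
    rw [one_mul, S.N_one] at this
    nlinarith [Nat.zero_le (S.k * S.N g)]
  · rintro w hw Γ t1 t t2 h1 h2 ⟨y1, g1, n1, e1⟩ ⟨y2, g2, n2, e2⟩
    have e3 := S.ev_seg w (h1.trans h2)
    obtain ⟨z, b, hb, e4⟩ := hB _ (S.seg_of hw (h1.trans h2)) g1 g2 (y2 - y1) n1 n2 (by
      rw [X.V_sub]
      rw [e1, e2] at e3
      calc _ = (Γ * X.V y1)⁻¹ * (Γ * X.V y1 * g1 * S.ev ((w.take t2).drop t1)) := by group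
        _ = _ := by rw [e3]; group) (t - t1)
    refine ⟨y1 + z, b, hb, ?_⟩
    have e5 : ((w.take t2).drop t1).take (t - t1) = (w.take t).drop t1 := by
      rw [List.take_drop, List.take_take, Nat.add_sub_cancel' h1, min_eq_left h2]
    rw [e5] at e4
    rw [← S.ev_seg w h1, e1, X.V_add, mul_assoc, e4]; group
  · intro s hs hl
    have h2 := hy s hl
    have h3 : ℓ s = (y s).length := by simp [hℓ, h2.1]
    have h4 : ℓ s ∣ Λ := Finset.dvd_prod_of_mem _ (Finset.mem_product.2 ⟨Finset.mem_univ _, hs⟩)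
    have h5 : 0 < Λ / ℓ s := Nat.div_pos (Nat.le_of_dvd hΛ h4) (hpos s)
    refine ⟨h2.rep S X h5, ?_⟩
    rw [rep_length, ← h3, Nat.div_mul_cancel h4]
  · intro s hs
    have : (vel s).1.natAbs + (vel s).2.natAbs ≤
        P.sup fun s => (vel s).1.natAbs + (vel s).2.natAbs :=
      Finset.le_sup (f := fun s => (vel s).1.natAbs + (vel s).2.natAbs)
        (Finset.mem_product.2 ⟨Finset.mem_univ _, hs⟩)
    generalize (P.sup fun s => (vel s).1.natAbs + (vel s).2.natAbs) = n at *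
    constructor <;> (rw [abs_le]; omega)

end Pool.Agent.H171Z.Biaut
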