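import Pool.Agent.H171Z.Biaut.Scheme

/-!
Schemes of every length exist; hence there is no biautomatic structure.
-/

set_option autoImplicit false

namespace Pool.Agent.H171Z.Biaut

variable {G : Type} [Group G] {S : BA G} {X : Geo G}

theorem ivt (f : ℕ → ℤ) (C : ℤ) (A B : ℕ) (hAB : A ≤ B)
    (hstep : ∀ t, A ≤ t → t < B → f (t + 1) - f t ≤ C) (z : ℤ) (h1 : f A ≤ z) (h2 : z < f B) :
    ∃ t, A ≤ t ∧ t ≤ B ∧ z < f t ∧ f t ≤ z + C := by
  induction B, hAB using Nat.le_induction with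
  | base => omega
  | succ B hAB ih =>
    by_cases h : z < f B
    · obtain ⟨t, a, b, c⟩ := ih (fun t a b => hstep t a (by omega)) h
      exact ⟨t, a, by omega, c⟩
    · have := hstep B hAB (by omega)
      exact ⟨B + 1, by omega, le_rfl, h2, by omega⟩

theorem ivt_pigeon0 {ι : Type} (P : Finset ι) (st : ℕ → ι) (f : ℕ → ℤ) (C : ℕ) (A B : ℕ)
    (hAB : A ≤ B) (hst : ∀ t, A ≤ t → t ≤ B → st t ∈ P)
    (hstep : ∀ t, A ≤ t → t < B → f (t + 1) - f t ≤ C) (hbig : C * P.card < f B - f A) :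
    ∃ t t', A ≤ t ∧ t < t' ∧ t' ≤ B ∧ st t = st t' ∧ f t ≠ f t' := by
  have h : ∀ j : ℕ, ∃ t, j ≤ P.card → A ≤ t ∧ t ≤ B ∧ f A + j * C < f t ∧
      f t ≤ f A + j * C + C := by
    intro j
    by_cases hj : j ≤ P.card
    · have a : (j : ℤ) * C ≤ C * P.card := by
        rw [mul_comm]
        exact mul_le_mul_of_nonneg_left (by exact_mod_cast hj) (by positivity)
      obtain ⟨t, ht⟩ := ivt f C A B hAB hstep (f A + j * C)
        (by have : (0 : ℤ) ≤ j * C := by positivity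
            omega) (by omega)
      exact ⟨t, fun _ => ht⟩
    · exact ⟨0, fun h => absurd h hj⟩
  choose T hT using h
  obtain ⟨i, hi, j, hj, hne, he⟩ := Finset.exists_ne_map_eq_of_card_lt_of_maps_to
    (s := Finset.range (P.card + 1)) (t := P) (by simp) (f := fun j => st (T j))
    (fun j hj => by
      have := hT j (by have := Finset.mem_range.1 hj; omega)
      exact hst _ this.1 this.2.1)
  have hi' := hT i (by have := Finset.mem_range.1 hi; omega)
  have hj' := hT j (by have := Finset.mem_range.1 hj; omega)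
  have hf : f (T i) ≠ f (T j) := by
    rcases lt_or_gt_of_ne hne with h | h
    · have : ((i : ℤ) + 1) * C ≤ j * C :=
        mul_le_mul_of_nonneg_right (by exact_mod_cast h) (by positivity)
      have h2 := hi'.2.2.2
      have h3 := hj'.2.2.1
      intro e; linarith
    · have : ((j : ℤ) + 1) * C ≤ i * C :=
        mul_le_mul_of_nonneg_right (by exact_mod_cast h) (by positivity)
      have h2 := hj'.2.2.2
      have h3 := hi'.2.2.1
      intro e; linarith
  rcases lt_trichotomy (T i) (T j) with h | h | h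
  · exact ⟨_, _, hi'.1, h, hj'.2.1, he, hf⟩
  · exact absurd (congrArg f h) hf
  · exact ⟨_, _, hj'.1, h, hi'.2.1, he.symm, hf.symm⟩

theorem ivt_pigeon {ι : Type} (P : Finset ι) (st : ℕ → ι) (f : ℕ → ℤ) (C : ℕ) (A B : ℕ)
    (hAB : A ≤ B) (hst : ∀ t, A ≤ t → t ≤ B → st t ∈ P)
    (hstep : ∀ t, A ≤ t → t < B → |f (t + 1) - f t| ≤ C) (hbig : C * P.card < |f B - f A|) :
    ∃ t t', A ≤ t ∧ t < t' ∧ t' ≤ B ∧ st t = st t' ∧ f t ≠ f t' := by
  rcases lt_abs.1 hbig with h | h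
  · exact ivt_pigeon0 P st f C A B hAB hst (fun t a b => (abs_le.1 (hstep t a b)).2) h
  · obtain ⟨t, t', a, b, c, d, e⟩ := ivt_pigeon0 P st (fun t => -f t) C A B hAB hst
      (fun t a b => by have := (abs_le.1 (hstep t a b)).1; omega) (by omega)
    exact ⟨t, t', a, b, c, d, fun h => e (by simp only [h])⟩

namespace Data

variable (D : Data S X)

noncomputable def Q : Finset (S.σ × G) := Finset.univ ×ˢ D.B

theorem mem_Q {s : S.σ × G} (h : s.2 ∈ D.B) : s ∈ D.Q :=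
  Finset.mem_product.2 ⟨Finset.mem_univ _, h⟩

theorem capture {w : List S.α} (hw : w ∈ S.M.accepts) {Γ : G} {t1 t2 : ℕ}
    (h1 : Near S X D.c Γ (S.ev (w.take t1))) (h2 : Near S X D.c Γ (S.ev (w.take t2))) :
    ∃ (y : ℕ → ℤ × ℤ) (b : ℕ → G), ∀ t, t1 ≤ t → t ≤ t2 →
      b t ∈ D.B ∧ S.ev (w.take t) = Γ * X.V (y t) * b t := by
  have : ∀ t, ∃ (y : ℤ × ℤ) (b : G), t1 ≤ t → t ≤ t2 →
      b ∈ D.B ∧ S.ev (w.take t) = Γ * X.V y * b := by
    intro t
    by_cases h : t1 ≤ t ∧ t ≤ t2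
    · obtain ⟨y, b, hb, e⟩ := D.hB w hw Γ t1 t t2 h.1 h.2 h1 h2
      exact ⟨y, b, fun _ _ => ⟨hb, e⟩⟩
    · exact ⟨0, 1, fun a b => absurd ⟨a, b⟩ h⟩
  choose y b h using this
  exact ⟨y, b, h⟩

theorem loop_of {w : List S.α} (hw : w ∈ S.M.accepts) {Γ b : G} {t t' : ℕ} {y y' : ℤ × ℤ}
    (h1 : t < t') (h2 : t' ≤ w.length) (hb : b ∈ D.B) (e1 : S.ev (w.take t) = Γ * X.V y * b)
    (e2 : S.ev (w.take t') = Γ * X.V y' * b) (e3 : S.M.eval (w.take t) = S.M.eval (w.take t')) :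
    D.Good (S.M.eval (w.take t), b) ∧
      (D.Λ : ℤ) • (y' - y) = ((t' : ℤ) - t) • D.vel (S.M.eval (w.take t), b) := by
  have hlen : ((w.take t').drop t).length = t' - t := by simp; omega
  have hl : Loop S X (S.M.eval (w.take t), b) ((w.take t').drop t) (y' - y) := by
    refine ⟨?_, ?_, ?_⟩
    · intro e; rw [e] at hlen; simp at hlen; omega
    · rw [S.eval_seg w h1.le, e3]
    · have e := S.ev_seg w h1.le
      rw [e1, e2] at e
      rw [X.V_sub]
      calc _ = (Γ * X.V y)⁻¹ * (Γ * X.V y * b * S.ev ((w.take t').drop t)) := by group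
        _ = _ := by rw [e]; group
  refine ⟨⟨S.live_take hw t, hb, _, _, hl⟩, ?_⟩
  have h3 := D.hlp (S.M.eval (w.take t), b) hb ⟨_, _, hl⟩
  have := vel_unique S X (S.live_take hw t) hl h3.1
  rw [h3.2, hlen] at this
  rw [this]; congr 1; omega

theorem V_bound {x : ℤ × ℤ} {g : G} {n : ℕ} (e : X.V x = g) (hn : S.N g ≤ n) :
    |x.1| ≤ (D.C * n : ℕ) ∧ |x.2| ≤ (D.C * n : ℕ) := by
  have h := rhoV_bound S X D.hC x
  have h2 : (D.C : ℤ) * S.N (X.V x) ≤ (D.C * n : ℕ) := by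
    rw [e]; exact_mod_cast Nat.mul_le_mul_left _ hn
  exact ⟨h.1.trans h2, h.2.trans h2⟩

theorem diff_bound {Γ b b' d : G} {y y' : ℤ × ℤ} {n n' m : ℕ} (hb : S.N b ≤ n) (hb' : S.N b' ≤ n')
    (hd : S.N d ≤ m) (e : Γ * X.V y * b * d = Γ * X.V y' * b') :
    |y'.1 - y.1| ≤ (D.C * (n + n' + m) : ℕ) ∧ |y'.2 - y.2| ≤ (D.C * (n + n' + m) : ℕ) := by
  have e2 : X.V (y' - y) = b * d * b'⁻¹ := by
    rw [X.V_sub]
    calc _ = (Γ * X.V y)⁻¹ * (Γ * X.V y' * b') * b'⁻¹ := by group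
      _ = _ := by rw [← e]; group
  refine D.V_bound e2 ?_
  have a1 := S.N_mul (b * d) b'⁻¹
  have a2 := S.N_mul b d
  rw [S.N_inv] at a1
  omega

theorem step_lip (w : List S.α) {Γ b b' : G} {t : ℕ} {y y' : ℤ × ℤ} (hb : b ∈ D.B)
    (hb' : b' ∈ D.B) (e1 : S.ev (w.take t) = Γ * X.V y * b)
    (e2 : S.ev (w.take (t + 1)) = Γ * X.V y' * b') :
    |y'.1 - y.1| ≤ (D.C * (D.cB + D.cB + 1) : ℕ) ∧ |y'.2 - y.2| ≤ (D.C * (D.cB + D.cB + 1) : ℕ) :=
  D.diff_bound (D.hcB b hb) (D.hcB b' hb') (S.take_dist w t 1) (by rw [← e1, ← e2]; group)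

theorem coord (y : ℤ × ℤ) {g : G} {n : ℕ} (hn : S.N g ≤ n) :
    |(X.ρ (X.V y * g)).1 - y.1| ≤ (D.C * n : ℕ) ∧ |(X.ρ (X.V y * g)).2 - y.2| ≤ (D.C * n : ℕ) := by
  have h := D.hC (X.V y) g
  rw [X.ρV] at h
  have h2 : (D.C : ℤ) * S.N g ≤ (D.C * n : ℕ) := by exact_mod_cast Nat.mul_le_mul_left _ hn
  exact ⟨h.1.trans h2, h.2.trans h2⟩

theorem crossing (w : List S.α) (h : G) (b : Bool) {t1 t2 : ℕ} (h12 : t1 ≤ t2)
    (h1 : ¬ X.side b (h⁻¹ * S.ev (w.take t1))) (h2 : X.side b (h⁻¹ * S.ev (w.take t2))) :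
    ∃ t, t1 ≤ t ∧ t < t2 ∧ t < w.length ∧ Near S X D.c h (S.ev (w.take t)) ∧
      ∃ m f, S.N f ≤ D.c ∧ S.ev (w.take t) = h * X.T b * X.V (0, m) * f := by
  have : ∃ t, t1 ≤ t ∧ t < t2 ∧ ¬ X.side b (h⁻¹ * S.ev (w.take t)) ∧
      X.side b (h⁻¹ * S.ev (w.take (t + 1))) := by
    induction t2, h12 using Nat.le_induction with
    | base => exact absurd h2 h1
    | succ n hn ih =>
      by_cases hs : X.side b (h⁻¹ * S.ev (w.take n))
      · obtain ⟨t, a, b, c⟩ := ih hs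
        exact ⟨t, a, by omega, c⟩
      · exact ⟨n, hn, by omega, hs, h2⟩
  obtain ⟨t, a1, a2, a3, a4⟩ := this
  have hl : t < w.length := by
    by_contra hl
    rw [List.take_of_length_le (by omega)] at a3 a4
    exact a3 a4
  rw [List.take_succ_eq_append_getElem hl, S.ev_append, S.ev_single, ← mul_assoc] at a4
  obtain ⟨m, f, f', n1, n2, e1, e2⟩ := D.hc b _ _ a3 a4
  refine ⟨t, a1, a2, hl, ⟨(eps b * m, m), f, n1, ?_⟩, m, f', n2, ?_⟩
  · rw [mul_assoc, ← e1]; group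
  · rw [mul_assoc, mul_assoc, ← mul_assoc (X.T b), ← e2]; group

theorem near_one (Γ : G) (z : ℤ × ℤ) : Near S X D.c Γ (Γ * X.V z) :=
  ⟨z, 1, by rw [S.N_one]; omega, by rw [mul_one]⟩

theorem near_V {c : ℕ} {Γ p : G} (z : ℤ × ℤ) (h : Near S X c (Γ * X.V z) p) : Near S X c Γ p := by
  obtain ⟨y, g, n, e⟩ := h
  exact ⟨z + y, g, n, by rw [e, X.V_add]; group⟩

theorem smul_ne {n : ℕ} {a : ℤ} {x y : ℤ} (hn : 0 < n) (h : (n : ℤ) * x = a * y) (hx : x ≠ 0) :
    y ≠ 0 := by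
  rintro rfl
  rw [mul_zero] at h
  rcases mul_eq_zero.1 h with h | h
  · omega
  · exact hx h

theorem base : Nonempty (Scheme D 1) := by
  set C1 := D.C * (D.cB + D.cB + 1) with hC1
  set C2 := D.C * (D.cB + 0 + 0) with hC2
  set n : ℕ := 2 * D.C0 * C1 * D.Q.card + C1 * D.Q.card + 4 * D.C0 * C2 + 2 * C2 + D.C0 + 1 with hn
  obtain ⟨w, hw, ew⟩ := S.onto (X.V (n, n * n))
  have ew' : S.ev w = X.V (n, n * n) := ew
  obtain ⟨y, b, hy⟩ := D.capture hw (Γ := 1) (t1 := 0) (t2 := w.length)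
    (by simpa [X.V_zero] using D.near_one 1 0)
    (by rw [List.take_length, ew']; simpa using D.near_one 1 (n, n * n))
  set st : ℕ → S.σ × G := fun t => (S.M.eval (w.take t), b t) with hst
  have hQ : ∀ t, 0 ≤ t → t ≤ w.length → st t ∈ D.Q := fun t a c => D.mem_Q (hy t a c).1
  have hstep : ∀ t, t < w.length → |(y (t + 1)).1 - (y t).1| ≤ C1 ∧
      |(y (t + 1)).2 - (y t).2| ≤ C1 := fun t a =>
    D.step_lip w (hy t (by omega) a.le).1 (hy (t + 1) (by omega) a).1 (hy t (by omega) a.le).2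
      (hy (t + 1) (by omega) a).2
  have h0 : |(0 : ℤ) - (y 0).1| ≤ C2 ∧ |(0 : ℤ) - (y 0).2| ≤ C2 := by
    have := hy 0 le_rfl (by omega)
    exact D.diff_bound (y' := 0) (Γ := 1) (D.hcB _ this.1) S.N_one.le S.N_one.le
      (by rw [← this.2]; simp [X.V_zero])
  have h1 : |(n : ℤ) - (y w.length).1| ≤ C2 ∧ |(n : ℤ) * n - (y w.length).2| ≤ C2 := by
    have := hy w.length (by omega) le_rfl
    exact D.diff_bound (y' := ((n : ℤ), (n : ℤ) * n)) (Γ := 1) (D.hcB _ this.1) S.N_one.le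
      S.N_one.le (by rw [← this.2, List.take_length, ew']; simp)
  have hl : ∀ t t', t < t' → t' ≤ w.length → st t = st t' → D.Good (st t) ∧
      (D.Λ : ℤ) • (y t' - y t) = ((t' : ℤ) - t) • D.vel (st t) := by
    intro t t' a c e
    have e1 : S.M.eval (w.take t) = S.M.eval (w.take t') := congrArg Prod.fst e
    have e2 : b t = b t' := congrArg Prod.snd e
    exact D.loop_of hw a c (hy t (by omega) (by omega)).1 (hy t (by omega) (by omega)).2
      (by rw [e2]; exact (hy t' (by omega) c).2) e1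
  have n1 : (1 : ℤ) ≤ n := by omega
  have nn : (n : ℤ) ≤ n * n := by nlinarith
  have hnZ : (n : ℤ) = 2 * D.C0 * C1 * D.Q.card + C1 * D.Q.card + 4 * D.C0 * C2 + 2 * C2 +
    D.C0 + 1 := by exact_mod_cast hn
  have p1 : (0 : ℤ) ≤ 2 * D.C0 * C1 * D.Q.card := by positivity
  have p2 : (0 : ℤ) ≤ C1 * D.Q.card := by positivity
  have p3 : (0 : ℤ) ≤ 4 * D.C0 * C2 := by positivity
  have p4 : (0 : ℤ) ≤ D.C0 := by positivity
  have p5 : (0 : ℤ) ≤ C2 := by positivity
  obtain ⟨t, t', _, a2, a3, a4, a5⟩ := ivt_pigeon D.Q st (fun t => (y t).2) C1 0 w.length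
    (by omega) hQ (fun t _ a => (hstep t a).2) (by
      have b1 := abs_le.1 h0.2
      have b2 := abs_le.1 h1.2
      refine lt_of_lt_of_le ?_ (le_abs_self _)
      linarith [b1.1, b1.2, b2.1, b2.2])
  obtain ⟨g1, v1⟩ := hl t t' a2 a3 a4
  set v := D.vel (st t) with hv
  have hv2 : v.2 ≠ 0 := smul_ne D.hΛ (by simpa using congrArg Prod.snd v1) (sub_ne_zero.2 a5.symm)
  have hvb := D.hC0 (st t) g1.2.1
  rw [← hv] at hvb
  obtain ⟨u, u', _, c2, c3, c4, c5⟩ := ivt_pigeon D.Q st (fun t => det v (y t)) (2 * D.C0 * C1) 0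
    w.length (by omega) hQ (fun t _ a => by
      have b1 := hstep t a
      have e : det v (y (t + 1)) - det v (y t) =
          v.1 * ((y (t + 1)).2 - (y t).2) - v.2 * ((y (t + 1)).1 - (y t).1) := by
        unfold det; ring
      rw [e]
      refine (abs_sub _ _).trans ?_
      rw [abs_mul, abs_mul]
      have d1 := mul_le_mul hvb.1 b1.2 (abs_nonneg _) p4
      have d2 := mul_le_mul hvb.2 b1.1 (abs_nonneg _) p4
      push_cast at d1 d2 ⊢
      linarith) (by
      have e : det v (y w.length) - det v (y 0) = (v.1 * (n * n) - v.2 * n) -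
          (v.1 * (n * n - (y w.length).2) - v.2 * (n - (y w.length).1)) +
          (v.1 * (0 - (y 0).2) - v.2 * (0 - (y 0).1)) := by
        unfold det; ring
      have d1 := mul_le_mul hvb.1 h1.2 (abs_nonneg _) p4
      have d2 := mul_le_mul hvb.2 h1.1 (abs_nonneg _) p4
      have d3 := mul_le_mul hvb.1 h0.2 (abs_nonneg _) p4
      have d4 := mul_le_mul hvb.2 h0.1 (abs_nonneg _) p4
      rw [← abs_mul, abs_le] at d1 d2 d3 d4
      have d5 : (n : ℤ) ≤ |v.1 * (n * n) - v.2 * n| := by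
        have : v.1 * (n * n) - v.2 * n = (v.1 * n - v.2) * n := by ring
        rw [this, abs_mul, Nat.abs_cast]
        refine le_mul_of_one_le_left (by omega) (Int.one_le_abs ?_)
        intro h
        have h2 : v.2 = v.1 * n := by omega
        have h3 : v.1 ≠ 0 := by rintro h3; rw [h3, zero_mul] at h2; exact hv2 h2
        have h4 := hvb.2
        rw [h2, abs_mul, Nat.abs_cast] at h4
        have h5 := Int.one_le_abs h3
        nlinarith
      rw [e, lt_abs]
      rw [le_abs] at d5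
      push_cast
      rcases d5 with d5 | d5
      · left; linarith [d1.1, d1.2, d2.1, d2.2, d3.1, d3.2, d4.1, d4.2]
      · right; linarith [d1.1, d1.2, d2.1, d2.2, d3.1, d3.2, d4.1, d4.2])
  obtain ⟨g2, v2⟩ := hl u u' c2 c3 c4
  have hdet : det v (D.vel (st u)) ≠ 0 := by
    refine smul_ne (a := (u' : ℤ) - u) D.hΛ ?_ (sub_ne_zero.2 c5.symm)
    have e1 := congrArg Prod.fst v2
    have e2 := congrArg Prod.snd v2
    simp only [Prod.smul_fst, Prod.smul_snd, smul_eq_mul, Prod.fst_sub, Prod.snd_sub] at e1 e2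
    unfold det
    linear_combination v.1 * e2 - v.2 * e1
  have fin : ∀ t u, t ≤ u → u ≤ w.length → D.Good (st t) → D.Good (st u) →
      det (D.vel (st t)) (D.vel (st u)) ≠ 0 → Nonempty (Scheme D 1) := by
    intro t u a c g1 g2 hd
    refine mk_scheme D 1 hw (fun j => if j = 0 then t else u) (fun j => st (if j = 0 then t else u))
      (fun j => y (if j = 0 then t else u)) (fun _ => 0) (fun _ => 1) (n, n * n)
      (fun _ _ => rfl) ?_ ?_ ?_ rfl ?_ (by rw [one_mul, ew']) (by simpa using hd)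
      (fun j a b => by omega)
    · intro j hj
      have : j = 0 := by omega
      simp [this, a]
    · intro j _
      split_ifs
      · exact g1
      · exact g2
    · intro j _
      split_ifs
      · exact (hy t (by omega) (by omega)).2
      · exact (hy u (by omega) (by omega)).2
    · intro j hj
      have : j = 0 := by omega
      simp [this, Xj, X.V_zero]
  rcases le_total t u with h | h
  · exact fin t u h (by omega) g1 g2 hdet
  · refine fin u t h (by omega) g2 g1 ?_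
    intro e; apply hdet
    unfold det at e ⊢
    rw [hv]; linarith

end Data

end Pool.Agent.H171Z.Biaut
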