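import Pool.Agent.H171Z.Biaut.Loops

/-!
Schemes: accepted words that run through a chain of planes, with two independent loops in the
first plane and one loop in every further plane. Such schemes have bounded length.
-/

set_option autoImplicit false

namespace Pool.Agent.H171Z.Biaut

variable {G : Type} [Group G] {S : BA G} {X : Geo G}

def Data.Good (D : Data S X) (s : S.σ × G) : Prop :=
  S.Live s.1 ∧ s.2 ∈ D.B ∧ ∃ y Y, Loop S X s y Y

/-- the unfavourable kind of strip for a given velocity -/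
def tbf (v : ℤ × ℤ) : Bool := decide (v.1 * (1 + 2 * v.2) < 0)

def det (v w : ℤ × ℤ) : ℤ := v.1 * w.2 - v.2 * w.1

def Xj (X : Geo G) (j : ℕ) (v : ℤ × ℤ) : G := if j = 0 then 1 else X.T (tbf v)

theorem eps_sq (b : Bool) : eps b * eps b = 1 := by cases b <;> simp [eps]

theorem tbf_adv {v : ℤ × ℤ} (h : v.1 ≠ 0) : eps (tbf v) * v.1 * (1 + 2 * v.2) < 0 := by
  have h2 : v.1 * (1 + 2 * v.2) ≠ 0 := mul_ne_zero h (by omega)
  unfold tbf eps
  by_cases h3 : v.1 * (1 + 2 * v.2) < 0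
  · simp [h3]
  · simp only [h3, decide_false, Bool.false_eq_true, if_false]
    have : 0 < v.1 * (1 + 2 * v.2) := lt_of_le_of_ne (not_lt.1 h3) h2.symm
    nlinarith

theorem adv_sign {p a : ℤ} (h : p * (1 + 2 * a) < 0) : p * a ≤ 0 := by
  rcases lt_trichotomy a 0 with h1 | h1 | h1
  · have : 0 < p := by nlinarith
    nlinarith
  · simp [h1]
  · have : p < 0 := by nlinarith
    nlinarith

theorem tbf_tr {v : ℤ × ℤ} (h : v ≠ 0) : v.1 - eps (tbf v) * v.2 ≠ 0 := by
  by_cases h1 : v.1 = 0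
  · have h2 : v.2 ≠ 0 := fun h2 => h (Prod.ext h1 h2)
    rw [h1, zero_sub, neg_ne_zero]
    refine mul_ne_zero ?_ h2
    cases tbf v <;> simp [eps]
  · intro h2
    have h3 := adv_sign (tbf_adv h1)
    have h4 : eps (tbf v) * v.1 * v.2 = v.1 * v.1 := by
      have : v.1 = eps (tbf v) * v.2 := by omega
      calc _ = v.1 * (eps (tbf v) * v.2) := by ring
        _ = _ := by rw [← this]
    have := mul_self_pos.2 h1
    omega

structure Scheme (D : Data S X) (k : ℕ) where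
  x : ℕ → List S.α
  s : ℕ → S.σ × G
  lam : ℕ → ℤ × ℤ
  mu : ℕ → ℤ × ℤ
  good : ∀ j ≤ k, D.Good (s j)
  st0 : S.M.eval (x 0) = (s 0).1
  st : ∀ j < k, S.M.evalFrom (s j).1 (x (j + 1)) = (s (j + 1)).1
  stk : S.M.evalFrom (s k).1 (x (k + 1)) ∈ S.M.accept
  g0 : S.ev (x 0) = X.V (lam 0) * (s 0).2
  gj : ∀ j < k, (s j).2 * S.ev (x (j + 1)) =
    X.V (mu j) * Xj X j (D.vel (s j)) * X.V (lam (j + 1)) * (s (j + 1)).2
  gk : (s k).2 * S.ev (x (k + 1)) = X.V (mu k)
  indep : det (D.vel (s 0)) (D.vel (s 1)) ≠ 0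
  tr : ∀ j, 2 ≤ j → j ≤ k → (D.vel (s j)).1 ≠ 0

theorem mk_scheme (D : Data S X) (k : ℕ) {w : List S.α} (hw : w ∈ S.M.accepts) (t : ℕ → ℕ)
    (s : ℕ → S.σ × G) (y ν : ℕ → ℤ × ℤ) (Γ : ℕ → G) (ye : ℤ × ℤ)
    (hs : ∀ j ≤ k, (s j).1 = S.M.eval (w.take (t j)))
    (mono : ∀ j < k, t j ≤ t (j + 1)) (good : ∀ j ≤ k, D.Good (s j))
    (pos : ∀ j ≤ k, S.ev (w.take (t j)) = Γ j * X.V (y j) * (s j).2) (h0 : Γ 0 = 1)
    (hΓ : ∀ j < k, Γ (j + 1) = Γ j * X.V (ν j) * Xj X j (D.vel (s j)))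
    (he : S.ev w = Γ k * X.V ye) (indep : det (D.vel (s 0)) (D.vel (s 1)) ≠ 0)
    (tr : ∀ j, 2 ≤ j → j ≤ k → (D.vel (s j)).1 ≠ 0) : Nonempty (Scheme D k) := by
  refine ⟨⟨fun j => match j with
      | 0 => w.take (t 0)
      | j + 1 => if j < k then (w.take (t (j + 1))).drop (t j) else w.drop (t k),
    s, y, fun j => if j < k then ν j - y j else ye - y k, good, ?_, ?_, ?_, ?_, ?_, ?_, indep, tr⟩⟩
  · exact (hs 0 (Nat.zero_le _)).symm
  · intro j hj
    simp only [hj, if_true]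
    rw [hs j hj.le, hs (j + 1) hj, S.eval_seg w (mono j hj)]
  · simp only [lt_irrefl, if_false]
    rw [hs k le_rfl, DFA.eval, ← DFA.evalFrom_of_append, List.take_append_drop]
    exact hw
  · simp only
    rw [pos 0 (Nat.zero_le _), h0, one_mul]
  · intro j hj
    simp only [hj, if_true]
    have e := S.ev_seg w (mono j hj)
    rw [pos j hj.le, pos (j + 1) hj, hΓ j hj] at e
    rw [X.V_sub]
    calc _ = (Γ j * X.V (y j))⁻¹ *
          (Γ j * X.V (y j) * (s j).2 * S.ev ((w.take (t (j + 1))).drop (t j))) := by group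
      _ = _ := by rw [e]; group
  · simp only [lt_irrefl, if_false]
    have e : S.ev (w.take (t k)) * S.ev (w.drop (t k)) = S.ev w := by
      rw [← S.ev_append, List.take_append_drop]
    rw [pos k le_rfl, he] at e
    rw [X.V_sub]
    calc _ = (Γ k * X.V (y k))⁻¹ * (Γ k * X.V (y k) * (s k).2 * S.ev (w.drop (t k))) := by group
      _ = _ := by rw [e]; group

namespace Scheme

variable {D : Data S X} {k : ℕ} (Z : Scheme D k)

def v (j : ℕ) : ℤ × ℤ := D.vel (Z.s j)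

def P (e : ℕ → ℕ) : ℕ → List S.α
  | 0 => Z.x 0
  | j + 1 => P e j ++ rep (e j) (D.lp (Z.s j)) ++ Z.x (j + 1)

def Γ (e : ℕ → ℕ) : ℕ → G
  | 0 => 1
  | j + 1 => Γ e j * X.V (Z.lam j + (e j : ℤ) • Z.v j + Z.mu j) * Xj X j (Z.v j)

def h (e : ℕ → ℕ) (j : ℕ) : G := Z.Γ e j * X.V (Z.lam j + (e j : ℤ) • Z.v j + Z.mu j)

theorem Γ_succ (e : ℕ → ℕ) (j : ℕ) : Z.Γ e (j + 1) = Z.h e j * Xj X j (Z.v j) := rfl

theorem lp {j : ℕ} (hj : j ≤ k) :
    Loop S X (Z.s j) (D.lp (Z.s j)) (Z.v j) ∧ (D.lp (Z.s j)).length = D.Λ :=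
  D.hlp _ (Z.good j hj).2.1 (Z.good j hj).2.2

theorem P_rep (e : ℕ → ℕ) {j : ℕ} (hj : j ≤ k) (m : ℕ)
    (h : S.M.eval (Z.P e j) = (Z.s j).1 ∧ S.ev (Z.P e j) = Z.Γ e j * X.V (Z.lam j) * (Z.s j).2) :
    S.M.eval (Z.P e j ++ rep m (D.lp (Z.s j))) = (Z.s j).1 ∧
      S.ev (Z.P e j ++ rep m (D.lp (Z.s j))) =
        Z.Γ e j * X.V (Z.lam j + (m : ℤ) • Z.v j) * (Z.s j).2 := by
  have hl := (Z.lp hj).1
  constructor
  · rw [DFA.eval, DFA.evalFrom_of_append, ← DFA.eval, h.1, rep_state S hl.2.1]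
  · rw [S.ev_append, h.2, mul_assoc, rep_ev S X hl.2.2, X.V_add]; group

theorem P_spec (e : ℕ → ℕ) : ∀ j ≤ k, S.M.eval (Z.P e j) = (Z.s j).1 ∧
    S.ev (Z.P e j) = Z.Γ e j * X.V (Z.lam j) * (Z.s j).2 := by
  intro j
  induction j with
  | zero => intro _; exact ⟨Z.st0, by rw [P, Γ, one_mul, Z.g0]⟩
  | succ j ih =>
    intro hj
    have h := Z.P_rep e (by omega) (e j) (ih (by omega))
    constructor
    · rw [P, DFA.eval, DFA.evalFrom_of_append, ← DFA.eval, h.1, Z.st j hj]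
    · rw [P, S.ev_append, h.2, mul_assoc, Z.gj j hj, Γ, X.V_add (_ + _)]
      unfold v; group

theorem W_acc (e : ℕ → ℕ) : Z.P e (k + 1) ∈ S.M.accepts := by
  have h := Z.P_rep e le_rfl (e k) (Z.P_spec e k le_rfl)
  rw [DFA.mem_accepts, P, DFA.eval, DFA.evalFrom_of_append, ← DFA.eval, h.1]
  exact Z.stk

theorem W_ev (e : ℕ → ℕ) : S.ev (Z.P e (k + 1)) = Z.h e k := by
  have h1 := Z.P_rep e le_rfl (e k) (Z.P_spec e k le_rfl)
  rw [P, S.ev_append, h1.2, mul_assoc, Z.gk, h, X.V_add (_ + _)]; group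

theorem P_pre (e : ℕ → ℕ) (j d : ℕ) : ∃ r, Z.P e (j + d) = Z.P e j ++ r := by
  induction d with
  | zero => exact ⟨[], by simp⟩
  | succ d ih =>
    obtain ⟨r, hr⟩ := ih
    exact ⟨_, by rw [← add_assoc, P, hr, List.append_assoc, List.append_assoc]⟩

theorem P_len (e : ℕ → ℕ) {j : ℕ} (hj : j ≤ k) :
    (Z.P e (j + 1)).length = (Z.P e j).length + e j * D.Λ + (Z.x (j + 1)).length := by
  rw [P, List.length_append, List.length_append, rep_length, (Z.lp hj).2]

theorem pos (e : ℕ → ℕ) {j : ℕ} (hj : j ≤ k) {m : ℕ} (hm : m ≤ e j) :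
    S.ev ((Z.P e (k + 1)).take ((Z.P e j).length + m * D.Λ)) =
      Z.Γ e j * X.V (Z.lam j + (m : ℤ) • Z.v j) * (Z.s j).2 := by
  obtain ⟨r, hr⟩ := Z.P_pre e (j + 1) (k - j)
  have e1 : j + 1 + (k - j) = k + 1 := by omega
  rw [e1] at hr
  have e2 : Z.P e (j + 1) = Z.P e j ++ rep (e j) (D.lp (Z.s j)) ++ Z.x (j + 1) := rfl
  obtain ⟨d, hd⟩ := Nat.exists_eq_add_of_le hm
  rw [e2, hd, rep_add] at hr
  have : Z.P e (k + 1) = (Z.P e j ++ rep m (D.lp (Z.s j))) ++
      (rep d (D.lp (Z.s j)) ++ Z.x (j + 1) ++ r) := by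
    rw [hr]; simp only [List.append_assoc]
  rw [this, List.take_left' (by rw [List.length_append, rep_length, (Z.lp hj).2])]
  exact (Z.P_rep e hj m (Z.P_spec e j hj)).2

end Scheme

theorem arith (v : ℕ → ℤ × ℤ) (hd : det (v 0) (v 1) ≠ 0) (n : ℕ) (hn : 2 ≤ n)
    (hv : ∀ j, 2 ≤ j → j < n → (v j).1 ≠ 0) :
    ∃ H Δ : ℕ → ℤ, 0 < H n ∧ Δ 0 • v 0 + Δ 1 • v 1 = (eps (tbf (v 1)) * H 2, H 2) ∧
      ∀ j, 2 ≤ j → j < n → Δ j * (v j).1 = eps (tbf (v j)) * H (j + 1) ∧
        H j + Δ j * (v j).2 = H (j + 1) := by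
  induction n, hn using Nat.le_induction with
  | base =>
    set d := det (v 0) (v 1) with hd'
    set ε := eps (tbf (v 1))
    refine ⟨fun _ => d * d, fun j => if j = 0 then d * det (ε, 1) (v 1) else d * det (v 0) (ε, 1),
      mul_self_pos.2 hd, ?_, fun j h1 h2 => by omega⟩
    simp only [if_true, one_ne_zero, if_false]
    rw [hd']
    ext <;> simp [det] <;> ring
  | succ n hn ih =>
    obtain ⟨H, Δ, h1, h2, h3⟩ := ih (fun j a b => hv j a (by omega))
    have hb := hv n hn (by omega)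
    set β := (v n).1
    set α := (v n).2
    set ε := eps (tbf (v n))
    set r := β * (β - ε * α) with hr
    refine ⟨fun j => if j ≤ n then r * H j else β * β * H n,
      fun j => if j < n then r * Δ j else ε * β * H n, ?_, ?_, ?_⟩
    · simp only [Nat.add_one_le_iff, lt_irrefl, if_false]
      exact mul_pos (mul_self_pos.2 hb) h1
    · have a0 : 0 < n := by omega
      have a1 : 1 < n := by omega
      simp only [a0, a1, hn, if_true]
      rw [mul_smul r, mul_smul r, ← smul_add, h2]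
      ext <;> simp; ring
    · intro j a b
      by_cases hj : j < n
      · have a1 : j ≤ n := hj.le
        have a2 : j + 1 ≤ n := hj
        simp only [hj, a1, a2, if_true]
        obtain ⟨e1, e2⟩ := h3 j a hj
        constructor
        · rw [mul_assoc, e1]; ring
        · rw [← e2]; ring
      · have : j = n := by omega
        subst this
        simp only [lt_irrefl, le_refl, Nat.add_one_le_iff, if_true, if_false]
        constructor
        · ring
        · rw [hr]; ring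

theorem arith_step {β α ε H H' Δ C M : ℤ} (he : ε * ε = 1) (ha : ε * β * (1 + 2 * α) < 0)
    (h1 : Δ * β = ε * H') (h2 : H + Δ * α = H') (hM : 0 < M) (hH : M ≤ H') (hC : |β| ≤ C) :
    H' ≤ H ∧ M ≤ C * (2 * H - (Δ + 2 * H')) := by
  have e1 : Δ * (ε * β) = H' := by
    calc _ = ε * (Δ * β) := by ring
      _ = (ε * ε) * H' := by rw [h1]; ring
      _ = H' := by rw [he, one_mul]
  have hp : |ε * β| ≤ C := by
    have : |ε| = 1 := by
      have : |ε| * |ε| = 1 := by rw [← abs_mul, he, abs_one]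
      nlinarith [abs_nonneg ε]
    rw [abs_mul, this, one_mul]; exact hC
  generalize ε * β = p at *
  have h3 := adv_sign ha
  rw [abs_le] at hp
  have e2 : 2 * H - (Δ + 2 * H') = -(Δ * (1 + 2 * α)) := by rw [← h2]; ring
  rw [e2]
  rcases lt_trichotomy p 0 with hp0 | hp0 | hp0
  · have a1 : Δ < 0 := by nlinarith
    have a2 : 0 ≤ α := by nlinarith
    constructor
    · nlinarith
    · have : -Δ ≤ -(Δ * (1 + 2 * α)) := by nlinarith
      nlinarith
  · rw [hp0] at ha; simp at ha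
  · have a1 : 0 < Δ := by nlinarith
    have a2 : α ≤ -1 := by nlinarith
    constructor
    · nlinarith
    · have : Δ ≤ -(Δ * (1 + 2 * α)) := by nlinarith
      nlinarith

theorem ex_bound (f : ℕ → ℕ) (k : ℕ) : ∃ E, ∀ j ≤ k, f j ≤ E :=
  ⟨(Finset.range (k + 1)).sup f, fun j hj =>
    Finset.le_sup (f := f) (Finset.mem_range.2 (by omega))⟩

theorem scheme_bound (D : Data S X) : ∃ k0, ∀ k, k0 ≤ k → Scheme D k → False := by
  set cV := S.N (X.V (1, 1)) + S.N (X.V (-1, 1)) with hcV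
  set R : ℤ := D.C * (D.K * (cV + 1) + 2 * D.cB) with hR
  have hR0 : 0 ≤ R := by positivity
  refine ⟨(2 * D.C0 * R * (3 + 2 * D.C0)).toNat + 3, fun k hk Z => ?_⟩
  obtain ⟨H, Δ, hM, h01, hrel⟩ := arith Z.v Z.indep (k + 1) (by omega)
    (fun j a b => Z.tr j a (by omega))
  set M := H (k + 1) with hMdef
  set θ : ℕ → ℤ := fun j => ∑ i ∈ Finset.range j, Δ i with hθ
  have θs : ∀ j, θ (j + 1) = θ j + Δ j := fun j => Finset.sum_range_succ _ _
  have hstep : ∀ j, 2 ≤ j → j ≤ k → M ≤ H (j + 1) →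
      H (j + 1) ≤ H j ∧ M ≤ D.C0 * (2 * H j - (Δ j + 2 * H (j + 1))) := by
    intro j a b c
    exact arith_step (eps_sq _) (tbf_adv (Z.tr j a b)) (hrel j a (by omega)).1
      (hrel j a (by omega)).2 hM c (D.hC0 _ (Z.good j b).2.1).1
  have hmono : ∀ d j, 2 ≤ j → j + d = k + 1 → M ≤ H j := by
    intro d
    induction d with
    | zero => intro j _ b; rw [add_zero] at b; rw [b]
    | succ d ih =>
      intro j a b
      have := ih (j + 1) (by omega) (by omega)
      exact this.trans (hstep j a (by omega) this).1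
  have hsum : ∀ d : ℕ, 2 + d ≤ k + 1 →
      d * M ≤ D.C0 * ((θ 2 + 2 * H 2) - (θ (2 + d) + 2 * H (2 + d))) := by
    intro d
    induction d with
    | zero => intro _; simp
    | succ d ih =>
      intro hd
      have a := ih (by omega)
      have b := (hstep (2 + d) (by omega) (by omega)
        (hmono (k - (2 + d)) _ (by omega) (by omega))).2
      rw [← add_assoc, θs (2 + d)]
      push_cast
      linarith
  obtain ⟨E, hE⟩ := ex_bound (fun j => (Δ j).natAbs + 2 * (θ j).natAbs) k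
  set e : ℕ → ℕ := fun _ => E with he
  set e' : ℕ → ℕ := fun j => (E + Δ j).toNat with he'
  have ee : ∀ j ≤ k, (e' j : ℤ) = e j + Δ j := by
    intro j hj
    have := hE j hj
    simp only [he, he']
    omega
  set Dv : ℕ → ℤ × ℤ := fun j => if j = 0 then 0 else if j = 1 then Δ 0 • Z.v 0 else (0, H j)
    with hDv
  have hD2 : ∀ j, 2 ≤ j → Dv j = (0, H j) := by
    intro j hj
    have a : j ≠ 0 := by omega
    have b : j ≠ 1 := by omega
    simp [hDv, a, b]
  have hD3 : ∀ j, 1 ≤ j → j ≤ k →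
      Dv j + Δ j • Z.v j = (eps (tbf (Z.v j)) * H (j + 1), H (j + 1)) := by
    intro j a b
    rcases Nat.eq_or_lt_of_le a with rfl | a
    · simpa [hDv] using h01
    · rw [hD2 j a]
      obtain ⟨e1, e2⟩ := hrel j a (by omega)
      ext
      · simpa using e1
      · simpa using e2
  have hX : ∀ j < k, X.V (Dv j + Δ j • Z.v j) * Xj X j (Z.v j) =
      Xj X j (Z.v j) * X.V (Dv (j + 1)) := by
    intro j hj
    rcases Nat.eq_zero_or_pos j with rfl | a
    · simp [hDv, Xj]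
    · rw [hD3 j a hj.le, hD2 (j + 1) (by omega)]
      have : j ≠ 0 := by omega
      simp only [Xj, this, if_false]
      exact X.VT _ _
  have hh : ∀ j ≤ k, Z.Γ e' j = Z.Γ e j * X.V (Dv j) →
      Z.h e' j = Z.h e j * X.V (Dv j + Δ j • Z.v j) := by
    intro j hj h1
    unfold Scheme.h
    rw [h1, ee j hj, mul_assoc, mul_assoc, ← X.V_add, ← X.V_add]
    congr 2
    rw [add_smul]; abel
  have hΓ : ∀ j ≤ k, Z.Γ e' j = Z.Γ e j * X.V (Dv j) := by
    intro j
    induction j with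
    | zero => intro _; simp [Scheme.Γ, hDv, X.V_zero]
    | succ j ih =>
      intro hj
      rw [Z.Γ_succ, Z.Γ_succ, hh j (by omega) (ih (by omega)), mul_assoc, hX j hj, mul_assoc]
  have hlen : ∀ j ≤ k, ((Z.P e' j).length : ℤ) = (Z.P e j).length + θ j * D.Λ := by
    intro j
    induction j with
    | zero => intro _; simp [Scheme.P, hθ]
    | succ j ih =>
      intro hj
      rw [Z.P_len _ (by omega), Z.P_len _ (by omega), θs]
      push_cast
      rw [ih (by omega), ee j (by omega)]; ring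
  have hend : S.ev (Z.P e' (k + 1)) =
      S.ev (Z.P e (k + 1)) * X.V (eps (tbf (Z.v k)) * M, M) := by
    rw [Z.W_ev, Z.W_ev, hh k le_rfl (hΓ k le_rfl), hD3 k (by omega) le_rfl]
  have hN : (S.N (X.V (eps (tbf (Z.v k)) * M, M)) : ℤ) ≤ M * cV := by
    have a : (eps (tbf (Z.v k)) * M, M) = ((M.toNat : ℕ) : ℤ) • (eps (tbf (Z.v k)), (1 : ℤ)) := by
      rw [Int.toNat_of_nonneg hM.le]; ext <;> simp [mul_comm]
    rw [a, X.V_nsmul]
    have b := S.N_pow (X.V (eps (tbf (Z.v k)), 1)) M.toNat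
    have c : S.N (X.V (eps (tbf (Z.v k)), 1)) ≤ cV := by
      cases tbf (Z.v k) <;> simp [eps, hcV]
    have d : (S.N (X.V (eps (tbf (Z.v k)), 1) ^ M.toNat) : ℤ) ≤ (M.toNat : ℤ) * cV := by
      exact_mod_cast b.trans (Nat.mul_le_mul_left _ c)
    rwa [Int.toNat_of_nonneg hM.le] at d
  have hbd : ∀ j, 2 ≤ j → j ≤ k → |θ j + 2 * H j| ≤ R * M * (3 + 2 * D.C0) := by
    intro j a b
    have hEj := hE j b
    set m := (θ j).natAbs with hm
    set m' := ((m : ℤ) - θ j).toNat with hm'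
    have em : (m' : ℤ) = m - θ j := by omega
    have p1 := Z.pos e b (m := m) (by simp only [he]; omega)
    have p2 := Z.pos e' b (m := m') (by simp only [he']; omega)
    have et : (Z.P e' j).length + m' * D.Λ = (Z.P e j).length + m * D.Λ := by
      have := hlen j b
      zify
      rw [this, em]; ring
    rw [et, hΓ j b, hD2 j a] at p2
    have f := D.hK _ (Z.W_acc e) _ (Z.W_acc e') _ hend ((Z.P e j).length + m * D.Λ)
    rw [p1, p2] at f
    have e3 : X.V ((0, H j) - θ j • Z.v j) = (Z.s j).2 *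
        ((Z.Γ e j * X.V (Z.lam j + (m : ℤ) • Z.v j) * (Z.s j).2)⁻¹ *
          (Z.Γ e j * X.V (0, H j) * X.V (Z.lam j + (m' : ℤ) • Z.v j) * (Z.s j).2)) *
            ((Z.s j).2)⁻¹ := by
      have : ((0 : ℤ), H j) - θ j • Z.v j =
          ((0, H j) + (Z.lam j + (m' : ℤ) • Z.v j)) - (Z.lam j + (m : ℤ) • Z.v j) := by
        rw [em, sub_smul]; abel
      rw [this, X.V_sub, X.V_add (0, H j)]
      generalize X.V (Z.lam j + (m : ℤ) • Z.v j) = A1
      generalize X.V (Z.lam j + (m' : ℤ) • Z.v j) = A2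
      group
    have n1 : (S.N (X.V ((0, H j) - θ j • Z.v j)) : ℤ) ≤ (D.K * (cV + 1) + 2 * D.cB) * M := by
      rw [e3]
      generalize (Z.Γ e j * X.V (Z.lam j + (m : ℤ) • Z.v j) * (Z.s j).2)⁻¹ *
          (Z.Γ e j * X.V (0, H j) * X.V (Z.lam j + (m' : ℤ) • Z.v j) * (Z.s j).2) = w at *
      have a1 := S.N_mul ((Z.s j).2 * w) ((Z.s j).2)⁻¹
      have a2 := S.N_mul (Z.s j).2 w
      rw [S.N_inv] at a1
      have a3 := D.hcB _ (Z.good j b).2.1
      have a4 : (S.N ((Z.s j).2 * w * ((Z.s j).2)⁻¹) : ℤ) ≤ S.N w + 2 * D.cB := by omega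
      have a5 : (S.N w : ℤ) ≤ D.K * (S.N (X.V (eps (tbf (Z.v k)) * M, M)) + 1) := by
        exact_mod_cast f
      have a6 : (D.K : ℤ) * (S.N (X.V (eps (tbf (Z.v k)) * M, M)) + 1) ≤ D.K * (M * cV + M) :=
        mul_le_mul_of_nonneg_left (by omega) (by positivity)
      have a7 : (D.cB : ℤ) ≤ D.cB * M := le_mul_of_one_le_right (by positivity) (by omega)
      nlinarith
    have n2 := rhoV_bound S X D.hC ((0, H j) - θ j • Z.v j)
    have n3 : (D.C : ℤ) * S.N (X.V ((0, H j) - θ j • Z.v j)) ≤ R * M := by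
      rw [hR, mul_assoc]
      exact mul_le_mul_of_nonneg_left n1 (by positivity)
    simp only [Prod.fst_sub, Prod.snd_sub, Prod.smul_fst, Prod.smul_snd, smul_eq_mul, zero_sub,
      abs_neg] at n2
    have b1 : |θ j| ≤ R * M := by
      have c1 := n2.1.trans n3
      rw [abs_mul] at c1
      have c2 : 1 ≤ |(Z.v j).1| := Int.one_le_abs (Z.tr j a b)
      nlinarith [abs_nonneg (θ j)]
    have b2 : |θ j * (Z.v j).2| ≤ R * M * D.C0 := by
      rw [abs_mul]
      exact mul_le_mul b1 (D.hC0 _ (Z.good j b).2.1).2 (abs_nonneg _) (by positivity)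
    have b3 := n2.2.trans n3
    rw [abs_le] at b1 b2 b3 ⊢
    constructor <;> linarith [b1.1, b1.2, b2.1, b2.2, b3.1, b3.2]
  have f1 := hsum (k - 2) (by omega)
  have f2 := hbd 2 le_rfl (by omega)
  have f3 := hbd k (by omega) le_rfl
  have e4 : 2 + (k - 2) = k := by omega
  rw [e4] at f1
  rw [abs_le] at f2 f3
  have f4 : ((k - 2 : ℕ) : ℤ) * M ≤ (2 * D.C0 * R * (3 + 2 * D.C0)) * M := by
    have h0 : (0 : ℤ) ≤ D.C0 := by positivity
    have h1 : (D.C0 : ℤ) * (θ 2 + 2 * H 2 - (θ k + 2 * H k)) ≤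
        D.C0 * (2 * (R * M * (3 + 2 * D.C0))) :=
      mul_le_mul_of_nonneg_left (by linarith [f2.2, f3.1]) h0
    linarith
  have f5 : ((k - 2 : ℕ) : ℤ) ≤ 2 * D.C0 * R * (3 + 2 * D.C0) := le_of_mul_le_mul_right f4 hM
  omega

end Pool.Agent.H171Z.Biaut
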