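import Pool.Agent.H171Z.Biaut.Main

/-!
The inductive step in the construction of schemes.
-/

set_option autoImplicit false

namespace Pool.Agent.H171Z.Biaut

variable {G : Type} [Group G] {S : BA G} {X : Geo G}

namespace Data

variable (D : Data S X)

theorem big_ne {a l e : ℤ} {m L R : ℕ} (ha : a ≠ 0) (hl : |l| ≤ L) (he : |e| ≤ R)
    (hm : L + R < m) : l + m * a + e ≠ 0 := by
  intro h
  have h1 : (m : ℤ) ≤ |m * a| := by
    rw [abs_mul, Nat.abs_cast]
    exact le_mul_of_one_le_right (by positivity) (Int.one_le_abs ha)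
  have h2 : (m : ℤ) * a = -l - e := by omega
  rw [h2] at h1
  have h3 := abs_sub (-l) e
  rw [abs_neg] at h3
  omega

theorem step {k : ℕ} (hk : 1 ≤ k) (Z : Scheme D k) : Nonempty (Scheme D (k + 1)) := by
  have hXj : ∀ j, 1 ≤ j → ∀ v, Xj X j v = X.T (tbf v) := by
    intro j hj v
    have : j ≠ 0 := by omega
    simp [Xj, this]
  have hv0 : ∀ j, 1 ≤ j → j ≤ k → Z.v j ≠ 0 := by
    intro j a b e
    rcases Nat.eq_or_lt_of_le a with rfl | a
    · apply Z.indep
      unfold Scheme.v at e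
      rw [e]; simp [det]
    · apply Z.tr j a b
      unfold Scheme.v at e
      rw [e]; rfl
  set nQ := D.Q.card with hnQ
  set C1 := D.C * (D.cB + D.cB + 1) with hC1
  set Nn : ℕ := C1 * nQ + D.C * (D.c + D.cB + 0) + D.C * (D.cB + 0 + 0) + 1 with hNn
  set gE := Xj X k (Z.v k) * X.V (Nn, 0) with hgE
  set R1 := D.K * (S.N gE + 1) with hR1
  set R2 := D.C * (D.cB + R1) with hR2
  set R3 := D.C * (D.cB + D.cB + R1) with hR3
  set Gp := 2 * R3 + 1 with hGp
  obtain ⟨L, hL⟩ := ex_bound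
    (fun j => (Z.lam j).1.natAbs + (Z.mu j).1.natAbs + (Z.mu j).2.natAbs) k
  set m0 := L + 2 * R2 + 1 with hm0
  set E := 2 * m0 + nQ * Gp with hE
  set e : ℕ → ℕ := fun _ => E with he
  obtain ⟨w, hw, ew⟩ := S.onto (Z.Γ e (k + 1) * X.V (Nn, 0))
  have ew' : S.ev w = Z.Γ e (k + 1) * X.V (Nn, 0) := ew
  set p : ℕ → G := fun t => S.ev (w.take t) with hp
  set τ : ℕ → ℕ := fun j => (Z.P e j).length with hτ
  have close : ∀ j ≤ k, ∀ m ≤ E, ∃ d, S.N d ≤ R1 ∧
      p (τ j + m * D.Λ) = Z.Γ e j * X.V (Z.lam j + (m : ℤ) • Z.v j) * (Z.s j).2 * d := by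
    intro j hj m hm
    have f := D.hK _ (Z.W_acc e) w hw gE (by rw [ew', Z.W_ev, Z.Γ_succ, hgE, mul_assoc])
      (τ j + m * D.Λ)
    refine ⟨_, f, ?_⟩
    rw [← Z.pos e hj (m := m) hm]
    simp only [hp, hτ]; group
  have hbd : ∀ j ≤ k, ∀ d, S.N d ≤ R1 → S.N ((Z.s j).2 * d) ≤ D.cB + R1 := by
    intro j hj d hd
    have := S.N_mul (Z.s j).2 d
    have := D.hcB _ (Z.good j hj).2.1
    omega
  have hout : ∀ j, 1 ≤ j → j ≤ k → ∀ m, m + m0 ≤ E →
      ¬ X.side (tbf (Z.v j)) ((Z.h e j)⁻¹ * p (τ j + m * D.Λ)) := by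
    intro j a b m hm hs
    obtain ⟨d, hd, e1⟩ := close j b m (by omega)
    have h2 := X.s2 _ _ hs
    have e2 : (Z.h e j)⁻¹ * p (τ j + m * D.Λ) =
        X.V ((Z.lam j + (m : ℤ) • Z.v j) - (Z.lam j + (E : ℤ) • Z.v j + Z.mu j)) *
          ((Z.s j).2 * d) := by
      rw [e1, X.V_sub]; unfold Scheme.h
      generalize X.V (Z.lam j + (m : ℤ) • Z.v j) = A1
      generalize X.V (Z.lam j + ((e j : ℕ) : ℤ) • Z.v j + Z.mu j) = A2
      group
    rw [e2] at h2
    have h3 := D.coord ((Z.lam j + (m : ℤ) • Z.v j) - (Z.lam j + (E : ℤ) • Z.v j + Z.mu j))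
      (hbd j b d hd)
    rw [← hR2] at h3
    generalize X.ρ (X.V ((Z.lam j + (m : ℤ) • Z.v j) - (Z.lam j + (E : ℤ) • Z.v j + Z.mu j)) *
          ((Z.s j).2 * d)) = r at h2 h3
    simp only [Prod.fst_sub, Prod.snd_sub, Prod.fst_add, Prod.snd_add, Prod.smul_fst,
      Prod.smul_snd, smul_eq_mul] at h3
    have hLj := hL j b
    obtain ⟨n, hn⟩ : ∃ n : ℕ, E = m + n := ⟨E - m, by omega⟩
    have t1 := tbf_tr (hv0 j a b)
    generalize tbf (Z.v j) = bb at *
    refine big_ne (l := (Z.mu j).1 - eps bb * (Z.mu j).2) (m := n) (L := L) (R := 2 * R2)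
      (e := -(r.1 - ((Z.lam j).1 + m * (Z.v j).1 - ((Z.lam j).1 + E * (Z.v j).1 + (Z.mu j).1))) +
        eps bb * (r.2 - ((Z.lam j).2 + m * (Z.v j).2 - ((Z.lam j).2 + E * (Z.v j).2 + (Z.mu j).2))))
      t1 ?_ ?_ (by omega) ?_
    · cases bb <;> simp only [eps, if_true, Bool.false_eq_true, if_false] <;>
        rw [abs_le] <;> omega
    · obtain ⟨h4, h5⟩ := h3
      rw [abs_le] at h4 h5 ⊢
      cases bb <;> simp only [eps, if_true, Bool.false_eq_true, if_false] <;> push_cast <;>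
        constructor <;> linarith [h4.1, h4.2, h5.1, h5.2]
    · rw [h2, hn]; push_cast; ring
  have hside : ∀ j, 1 ≤ j → ∀ g, (X.ρ ((Z.Γ e (j + 1))⁻¹ * g)).1 ≠ 0 →
      X.side (tbf (Z.v j)) ((Z.h e j)⁻¹ * g) := by
    intro j a g h
    by_contra hs
    apply h
    have := X.s1 _ _ hs
    rw [Z.Γ_succ, hXj j a, mul_inv_rev, mul_assoc]
    exact this
  have hin : ∀ j, 1 ≤ j → j + 1 ≤ k → ∀ m, m0 ≤ m → m ≤ E →
      X.side (tbf (Z.v j)) ((Z.h e j)⁻¹ * p (τ (j + 1) + m * D.Λ)) := by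
    intro j a b m hm hm'
    apply hside j a
    obtain ⟨d, hd, e1⟩ := close (j + 1) b m hm'
    rw [e1, mul_assoc, mul_assoc, inv_mul_cancel_left]
    have h3 := (D.coord (Z.lam (j + 1) + (m : ℤ) • Z.v (j + 1)) (hbd _ b d hd)).1
    rw [← hR2] at h3
    generalize X.ρ (X.V (Z.lam (j + 1) + (m : ℤ) • Z.v (j + 1)) * ((Z.s (j + 1)).2 * d)) = r at h3
    simp only [Prod.fst_add, Prod.smul_fst, smul_eq_mul] at h3
    have hLj := hL (j + 1) b
    have := big_ne (l := (Z.lam (j + 1)).1) (m := m) (L := L) (R := R2)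
      (Z.tr (j + 1) (by omega) b) (by rw [abs_le]; omega) h3 (by omega)
    intro h; apply this
    unfold Scheme.v at *
    omega
  have hpe : ∀ t, w.length ≤ t → p t = Z.Γ e (k + 1) * X.V (Nn, 0) := by
    intro t ht
    simp only [hp]; rw [List.take_of_length_le ht, ew']
  have hinE : ∀ t, w.length ≤ t → X.side (tbf (Z.v k)) ((Z.h e k)⁻¹ * p t) := by
    intro t ht
    apply hside k hk
    rw [hpe t ht, inv_mul_cancel_left, X.ρV]
    simp only; omega
  set lo : ℕ → ℕ := fun j => τ j + (m0 + nQ * Gp) * D.Λ with hlo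
  set hi : ℕ → ℕ := fun j => if j < k then τ (j + 1) + m0 * D.Λ else lo k + w.length with hhi
  have hτm : ∀ j ≤ k, lo j ≤ τ (j + 1) := by
    intro j hj
    have h1 := Z.P_len e hj
    have h2 : (m0 + nQ * Gp) * D.Λ ≤ E * D.Λ := Nat.mul_le_mul_right _ (by omega)
    simp only [hlo, hτ, he] at *
    omega
  have hτlo : ∀ j, τ j + m0 * D.Λ ≤ lo j := by
    intro j
    have h2 : m0 * D.Λ ≤ (m0 + nQ * Gp) * D.Λ := Nat.mul_le_mul_right _ (by omega)
    simp only [hlo]; omega
  have hχ : ∀ j, ∃ t, 1 ≤ j → j ≤ k → lo j ≤ t ∧ t < hi j ∧ t < w.length ∧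
      Near S X D.c (Z.Γ e j) (p t) ∧
      ∃ m f, S.N f ≤ D.c ∧ p t = Z.Γ e (j + 1) * X.V (0, m) * f := by
    intro j
    by_cases hj : 1 ≤ j ∧ j ≤ k
    · obtain ⟨a, b⟩ := hj
      have h1 := hout j a b (m0 + nQ * Gp) (by omega)
      have h2 : X.side (tbf (Z.v j)) ((Z.h e j)⁻¹ * p (hi j)) := by
        by_cases c : j < k
        · simp only [hhi, c, if_true]
          exact hin j a c m0 le_rfl (by omega)
        · have : j = k := by omega
          subst this
          exact hinE _ (by simp [hhi])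
      have h3 : lo j ≤ hi j := by
        by_cases c : j < k
        · simp only [hhi, c, if_true]
          have := hτm j b
          omega
        · have : j = k := by omega
          subst this
          simp [hhi]
      obtain ⟨t, c1, c2, c3, c4, m, f, c5, c6⟩ := D.crossing w (Z.h e j) _ h3 h1 h2
      refine ⟨t, fun _ _ => ⟨c1, c2, c3, near_V _ c4, m, f, c5, ?_⟩⟩
      rw [Z.Γ_succ, hXj j a]; exact c6
    · exact ⟨0, fun a b => absurd ⟨a, b⟩ hj⟩
  choose χ hχ using hχ
  have hΓ1 : Z.Γ e 1 = 1 * X.V (Z.lam 0 + (e 0 : ℤ) • Z.v 0 + Z.mu 0) := by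
    simp [Scheme.Γ, Xj]
  have hwin : ∀ j ≤ k, ∃ a b, a ≤ τ j + m0 * D.Λ ∧ lo j ≤ b ∧ b < w.length ∧
      Near S X D.c (Z.Γ e j) (p a) ∧ Near S X D.c (Z.Γ e j) (p b) := by
    intro j hj
    have p0 : p 0 = 1 := rfl
    rcases Nat.lt_or_ge j 2 with c | c
    · have h1 := hχ 1 le_rfl hk
      have : j = 0 ∨ j = 1 := by omega
      rcases this with rfl | rfl
      · refine ⟨0, χ 1, by omega, ?_, h1.2.2.1, ?_, ?_⟩
        · have b1 : lo 0 ≤ τ 1 := hτm 0 hj
          exact b1.trans ((Nat.le_add_right _ _).trans ((hτlo 1).trans h1.1))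
        · rw [p0]; simpa [Scheme.Γ, X.V_zero] using D.near_one 1 0
        · have := h1.2.2.2.1
          rw [hΓ1] at this
          exact near_V _ this
      · refine ⟨0, χ 1, by omega, h1.1, h1.2.2.1, ?_, h1.2.2.2.1⟩
        have := D.near_one (Z.Γ e 1) (-(Z.lam 0 + (e 0 : ℤ) • Z.v 0 + Z.mu 0))
        rw [X.V_neg] at this
        rw [p0]
        convert this
        rw [hΓ1]; simp
    · obtain ⟨i, rfl⟩ : ∃ i, j = i + 1 := ⟨j - 1, by omega⟩
      have h1 := hχ i (by omega) (by omega)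
      have h2 := hχ (i + 1) (by omega) hj
      refine ⟨χ i, χ (i + 1), ?_, h2.1, h2.2.2.1, ?_, h2.2.2.2.1⟩
      · have := h1.2.1
        have c2 : i < k := by omega
        simp only [hhi, c2, if_true] at this
        omega
      · obtain ⟨m, f, a, b⟩ := h1.2.2.2.2
        exact ⟨_, f, a, b⟩
  have hmark : ∀ j, ∃ (t : ℕ) (s : S.σ × G) (y : ℤ × ℤ), j ≤ k + 1 →
      s.1 = S.M.eval (w.take t) ∧ D.Good s ∧ p t = Z.Γ e j * X.V y * s.2 ∧
      (j ≤ k → τ j ≤ t ∧ t ≤ lo j ∧ D.vel s = Z.v j) ∧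
      (j = k + 1 → lo k ≤ t ∧ (D.vel s).1 ≠ 0) := by
    intro j
    rcases lt_trichotomy j (k + 1) with hj | hj | hj
    · have hj' : j ≤ k := by omega
      obtain ⟨a, b, a1, a2, a3, a4, a5⟩ := hwin j hj'
      obtain ⟨y, bb, hy⟩ := D.capture hw a4 a5
      set T : ℕ → ℕ := fun i => τ j + (m0 + i * Gp) * D.Λ with hT
      have hT1 : ∀ i ≤ nQ, τ j + m0 * D.Λ ≤ T i ∧ T i ≤ lo j := by
        intro i hi
        have b1 : m0 * D.Λ ≤ (m0 + i * Gp) * D.Λ := Nat.mul_le_mul_right _ (by omega)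
        have b2 : (m0 + i * Gp) * D.Λ ≤ (m0 + nQ * Gp) * D.Λ :=
          Nat.mul_le_mul_right _ (by have := Nat.mul_le_mul_right Gp hi; omega)
        simp only [hT, hlo]; omega
      have hT2 : ∀ i ≤ nQ, bb (T i) ∈ D.B ∧ p (T i) = Z.Γ e j * X.V (y (T i)) * bb (T i) := by
        intro i hi
        have := hT1 i hi
        exact hy _ (by omega) (by omega)
      have hT3 : ∀ i ≤ nQ,
          |(y (T i)).1 - ((Z.lam j).1 + (m0 + i * Gp : ℕ) * (Z.v j).1)| ≤ R3 ∧
          |(y (T i)).2 - ((Z.lam j).2 + (m0 + i * Gp : ℕ) * (Z.v j).2)| ≤ R3 := by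
        intro i hi
        obtain ⟨d, hd, e1⟩ := close j hj' (m0 + i * Gp)
          (by have := Nat.mul_le_mul_right Gp hi; omega)
        exact D.diff_bound (D.hcB _ (Z.good j hj').2.1) (D.hcB _ (hT2 i hi).1) hd
          (e1.symm.trans (hT2 i hi).2)
      have key : ∀ i i', i < i' → i' ≤ nQ →
          (S.M.eval (w.take (T i)), bb (T i)) = (S.M.eval (w.take (T i')), bb (T i')) →
          D.Good (S.M.eval (w.take (T i)), bb (T i)) ∧
            D.vel (S.M.eval (w.take (T i)), bb (T i)) = Z.v j := by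
        intro i i' h1 h2 h3
        have e1 : S.M.eval (w.take (T i)) = S.M.eval (w.take (T i')) := congrArg Prod.fst h3
        have e2 : bb (T i) = bb (T i') := congrArg Prod.snd h3
        obtain ⟨n, rfl⟩ : ∃ n, i' = i + (n + 1) := ⟨i' - i - 1, by omega⟩
        have e3 : T (i + (n + 1)) = T i + (n + 1) * Gp * D.Λ := by simp only [hT]; ring
        have hpos : 0 < (n + 1) * Gp * D.Λ :=
          Nat.mul_pos (Nat.mul_pos (by omega) (by omega)) D.hΛ
        have b1 := hT1 _ h2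
        obtain ⟨g1, v1⟩ := D.loop_of hw (t := T i) (t' := T (i + (n + 1))) (by omega) (by omega)
          (hT2 i (by omega)).1 (hT2 i (by omega)).2 (by rw [e2]; exact (hT2 _ h2).2) e1
        refine ⟨g1, ?_⟩
        generalize D.vel (S.M.eval (w.take (T i)), bb (T i)) = v at v1
        have c1 := hT3 i (by omega)
        have c2 := hT3 _ h2
        have hΛ : (D.Λ : ℤ) ≠ 0 := by have := D.hΛ; omega
        have fin : ∀ y1 y2 l u u' : ℤ, D.Λ * (y2 - y1) = ((T (i + (n + 1)) : ℤ) - T i) * u →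
            |y1 - (l + (m0 + i * Gp : ℕ) * u')| ≤ R3 →
            |y2 - (l + (m0 + (i + (n + 1)) * Gp : ℕ) * u')| ≤ R3 → u = u' := by
          intro y1 y2 l u u' f1 f2 f3
          have f4 : y2 - y1 = ((n + 1) * Gp : ℕ) * u := by
            apply mul_left_cancel₀ hΛ
            rw [f1, e3]; push_cast; ring
          by_contra hne
          refine big_ne (a := u - u') (l := (y1 - (l + (m0 + i * Gp : ℕ) * u')))
            (e := -(y2 - (l + (m0 + (i + (n + 1)) * Gp : ℕ) * u'))) (m := (n + 1) * Gp)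
            (sub_ne_zero.2 hne) f2 (by rw [abs_neg]; exact f3) (by nlinarith) ?_
          push_cast at f4 ⊢
          linear_combination (-1 : ℤ) * f4
        exact Prod.ext (fin _ _ _ _ _ (by simpa using congrArg Prod.fst v1) c1.1 c2.1)
          (fin _ _ _ _ _ (by simpa using congrArg Prod.snd v1) c1.2 c2.2)
      obtain ⟨i, hi, i', hi', hne, he2⟩ := Finset.exists_ne_map_eq_of_card_lt_of_maps_to
        (s := Finset.range (nQ + 1)) (t := D.Q) (by simp [hnQ])
        (f := fun i => (S.M.eval (w.take (T i)), bb (T i)))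
        (fun i hi => D.mem_Q (hT2 i (by have := Finset.mem_range.1 hi; omega)).1)
      have hi2 : i ≤ nQ := by have := Finset.mem_range.1 hi; omega
      have hi2' : i' ≤ nQ := by have := Finset.mem_range.1 hi'; omega
      have fin2 : ∃ i ≤ nQ, D.Good (S.M.eval (w.take (T i)), bb (T i)) ∧
            D.vel (S.M.eval (w.take (T i)), bb (T i)) = Z.v j := by
        rcases lt_or_gt_of_ne hne with h | h
        · exact ⟨i, hi2, key i i' h hi2' he2⟩
        · exact ⟨i', hi2', key i' i h hi2 he2.symm⟩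
      obtain ⟨i, hi, g1, v1⟩ := fin2
      have b1 := hT1 i hi
      exact ⟨T i, _, y (T i), fun _ => ⟨rfl, g1, (hT2 i hi).2,
        fun _ => ⟨by omega, b1.2, v1⟩, fun h => by omega⟩⟩
    · subst hj
      obtain ⟨a1, a2, a3, a4, m, f, a5, a6⟩ := hχ k hk le_rfl
      obtain ⟨y, bb, hy⟩ := D.capture hw (Γ := Z.Γ e (k + 1)) (t1 := χ k) (t2 := w.length)
        ⟨_, f, a5, a6⟩ (by
          have := hpe w.length le_rfl
          simp only [hp] at this
          rw [this]; exact D.near_one _ _)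
      obtain ⟨t, t', b1, b2, b3, b4, b5⟩ := ivt_pigeon D.Q
        (fun t => (S.M.eval (w.take t), bb t)) (fun t => (y t).1) C1 (χ k) w.length a3.le
        (fun t a b => D.mem_Q (hy t a b).1)
        (fun t a b => (D.step_lip w (hy t a b.le).1 (hy (t + 1) (by omega) b).1 (hy t a b.le).2
          (hy (t + 1) (by omega) b).2).1) (by
          have c1 := hy (χ k) le_rfl a3.le
          have c2 := hy w.length a3.le le_rfl
          have d1 := (D.diff_bound (Γ := Z.Γ e (k + 1)) (y := (0, m)) (y' := y (χ k)) a5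
            (D.hcB _ c1.1) S.N_one.le (by rw [mul_one, ← a6, ← c1.2])).1
          have d2 := (D.diff_bound (Γ := Z.Γ e (k + 1)) (y' := ((Nn : ℤ), 0)) (y := y w.length)
            (D.hcB _ c2.1) S.N_one.le S.N_one.le (by
              rw [mul_one, mul_one, ← c2.2]; exact hpe _ le_rfl)).1
          refine lt_of_lt_of_le ?_ (le_abs_self _)
          rw [abs_le] at d1 d2
          have : (Nn : ℤ) = C1 * nQ + (D.C * (D.c + D.cB + 0) : ℕ) + (D.C * (D.cB + 0 + 0) : ℕ) + 1 := by
            exact_mod_cast hNn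
          simp only at d1 d2
          linarith [d1.1, d1.2, d2.1, d2.2])
      have e1 : S.M.eval (w.take t) = S.M.eval (w.take t') := congrArg Prod.fst b4
      have e2 : bb t = bb t' := congrArg Prod.snd b4
      obtain ⟨g1, v1⟩ := D.loop_of hw b2 b3 (hy t b1 (by omega)).1 (hy t b1 (by omega)).2
        (by rw [e2]; exact (hy t' (by omega) b3).2) e1
      refine ⟨t, _, y t, fun _ => ⟨rfl, g1, (hy t b1 (by omega)).2, fun h => by omega,
        fun _ => ⟨by omega, ?_⟩⟩⟩
      exact smul_ne D.hΛ (by simpa using congrArg Prod.fst v1) (sub_ne_zero.2 b5.symm)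
    · exact ⟨0, (S.M.start, 1), 0, fun h => by omega⟩
  choose t s y hm using hmark
  have hvel : ∀ j ≤ k, D.vel (s j) = Z.v j := fun j hj => ((hm j (by omega)).2.2.2.1 hj).2.2
  refine mk_scheme D (k + 1) hw t s y (fun j => Z.lam j + (e j : ℤ) • Z.v j + Z.mu j) (Z.Γ e)
    (Nn, 0) (fun j hj => (hm j hj).1) ?_ (fun j hj => (hm j hj).2.1)
    (fun j hj => (hm j hj).2.2.1) rfl ?_ ew' ?_ ?_
  · intro j hj
    have a := (hm j (by omega)).2.2.2.1 (by omega)
    rcases Nat.lt_or_ge j k with c | c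
    · have b := (hm (j + 1) (by omega)).2.2.2.1 c
      have := hτm j c.le
      omega
    · have : j = k := by omega
      subst this
      have b := (hm (j + 1) le_rfl).2.2.2.2 rfl
      omega
  · intro j hj
    rw [hvel j (by omega)]; rfl
  · rw [hvel 0 (by omega), hvel 1 hk]; exact Z.indep
  · intro j a b
    rcases Nat.lt_or_ge k j with c | c
    · have : j = k + 1 := by omega
      exact ((hm j b).2.2.2.2 this).2
    · rw [hvel j c]; exact Z.tr j a c

end Data

theorem not_BA (S : BA G) (X : Geo G) : False := by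
  obtain ⟨D⟩ := ex_data S X
  obtain ⟨k0, hk0⟩ := scheme_bound D
  have : ∀ k, Nonempty (Scheme D (k + 1)) := by
    intro k
    induction k with
    | zero => exact D.base
    | succ k ih => obtain ⟨Z⟩ := ih; exact D.step (by omega) Z
  obtain ⟨Z⟩ := this k0
  exact hk0 _ (by omega) Z

end Pool.Agent.H171Z.Biaut
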